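import Mathlib
set_option autoImplicit false

/-!
# Kernels of `HP(Φ)` and `HPS(Φ)` are decidable

For a finite class `Φ` of finite semigroups and `K = HP` or `K = HPS`, the class
`Cor(K(Φ)) = {M ∈ K(Φ) : HSP(M) ⊆ K(Φ)}` is decidable.

Outline.  Let `t` bound the sizes of the members of `Φ`.  If `M` is in the kernel, every
subsemigroup of a power of `M` is a homomorphic image of a product of semigroups with at most `t`
elements.  This forces (pigeonhole arguments in the coordinates of the product): local monoids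
`eMe` are groups; subgroups are abelian; `efe = e` for idempotents `e, f`; products of `t + 1`
elements contain an idempotent factor.  Hence `M` satisfies the laws `p x y s = p y x s` and
`p x^(t!) s = p s` for `p, s` products of `t + 1` elements.  For semigroups satisfying these laws,
the identities in at most `4t + 5` letters of bounded length determine all identities, so the
kernel is given by finitely many finite sets of identities.
-/

namespace Pool.Agent.Results.MP_88bd66_lc.HPandHPS

/-- A finite nonempty semigroup. -/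
structure FinSg where
  carrier : Type
  sg : Semigroup carrier
  fin : Finite carrier
  ne : Nonempty carrier

attribute [instance] FinSg.sg FinSg.fin FinSg.ne

instance : CoeSort FinSg Type := ⟨FinSg.carrier⟩

/-- homomorphic images of members of `C` -/
def opH (C : Set FinSg) : Set FinSg :=
  {B | ∃ A ∈ C, ∃ f : A →ₙ* B, Function.Surjective f}

/-- semigroups embeddable into members of `C` -/
def opS (C : Set FinSg) : Set FinSg :=
  {B | ∃ A ∈ C, ∃ f : B →ₙ* A, Function.Injective f}

/-- the direct product of `n + 1` finite semigroups -/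
def prodSg {n : ℕ} (T : Fin (n + 1) → FinSg) : FinSg :=
  ⟨∀ i, T i, inferInstance, inferInstance, inferInstance⟩

/-- finite direct products of members of `C` (at least one factor), up to isomorphism -/
def opP (C : Set FinSg) : Set FinSg :=
  {B | ∃ (n : ℕ) (T : Fin (n + 1) → FinSg), (∀ i, T i ∈ C) ∧ Nonempty (B ≃* prodSg T)}

/-- the kernel of `K Φ` -/
def Cor (K : Set FinSg → Set FinSg) (Φ : Set FinSg) : Set FinSg :=
  {M | M ∈ K Φ ∧ opH (opS (opP {M})) ⊆ K Φ}

/-- finitely many isomorphism types -/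
def FinTypes (Φ : Set FinSg) : Prop :=
  ∃ L : List FinSg, ∀ A ∈ Φ, ∃ B ∈ L, Nonempty (A ≃* B)

/-- entry `(i, j)` of the `n × n` table written row by row in the list `l` -/
def tmul (n : ℕ) (l : List ℕ) (i j : ℕ) : ℕ := l.getD (i * n + j) 0

/-- `l` is the multiplication table (row by row) of a semigroup on `{0, …, n-1}`, `n > 0` -/
def IsTable (n : ℕ) (l : List ℕ) : Prop :=
  0 < n ∧ l.length = n * n ∧ (∀ x ∈ l, x < n) ∧
    ∀ i < n, ∀ j < n, ∀ k < n, tmul n l (tmul n l i j) k = tmul n l i (tmul n l j k)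

theorem tmul_lt {n : ℕ} {l : List ℕ} (h : IsTable n l) (i j : ℕ) : tmul n l i j < n := by
  unfold tmul
  by_cases hh : i * n + j < l.length
  · rw [List.getD_eq_getElem _ _ hh]
    exact h.2.2.1 _ (List.getElem_mem hh)
  · rw [List.getD_eq_default _ _ (by omega)]
    exact h.1

/-- the semigroup given by a table -/
def tableSg (n : ℕ) (l : List ℕ) (h : IsTable n l) : FinSg where
  carrier := Fin n
  sg := { mul := fun a b => ⟨tmul n l a b, tmul_lt h a b⟩
          mul_assoc := fun a b c => Fin.ext (h.2.2.2 a a.2 b b.2 c c.2) }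
  fin := inferInstance
  ne := ⟨⟨0, h.1⟩⟩

/-- A class is decidable: membership is decided from the multiplication table. -/
def DecClass (C : Set FinSg) : Prop :=
  ComputablePred fun x : ℕ × List ℕ => ∃ h : IsTable x.1 x.2, tableSg x.1 x.2 h ∈ C

/-- positive powers: `npw x k = x ^ (k + 1)` -/
def npw {M : Type} [Semigroup M] (x : M) : ℕ → M
  | 0 => x
  | k + 1 => npw x k * x

theorem npw_comm {M : Type} [Semigroup M] (x : M) (k : ℕ) : npw x k * x = x * npw x k := by
  induction k with
  | zero => rfl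
  | succ k ih =>
    show npw x k * x * x = x * (npw x k * x)
    rw [ih, mul_assoc, ih]

theorem npw_add {M : Type} [Semigroup M] (x : M) (a b : ℕ) :
    npw x a * npw x b = npw x (a + b + 1) := by
  induction b with
  | zero => rfl
  | succ b ih =>
    show npw x a * (npw x b * x) = npw x (a + b + 1) * x
    rw [← mul_assoc, ih]

theorem map_npw {M N : Type} [Semigroup M] [Semigroup N] (f : M →ₙ* N) (x : M) (k : ℕ) :
    f (npw x k) = npw (f x) k := by
  induction k with
  | zero => rfl
  | succ k ih =>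
    show f (npw x k * x) = npw (f x) k * f x
    rw [map_mul, ih]

theorem pi_npw {ι : Type} {T : ι → Type} [∀ i, Semigroup (T i)] (x : ∀ i, T i) (k : ℕ) (i : ι) :
    npw x k i = npw (x i) k := by
  induction k with
  | zero => rfl
  | succ k ih =>
    show (npw x k * x) i = npw (x i) k * x i
    rw [Pi.mul_apply, ih]

theorem npw_periodic {M : Type} [Semigroup M] {x : M} {i d : ℕ} (h : npw x i = npw x (i + d)) :
    ∀ (m r : ℕ), i ≤ m → npw x (m + r * d) = npw x m := by
  have h1 : ∀ m, i ≤ m → npw x (m + d) = npw x m := by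
    intro m hm
    obtain ⟨j, rfl⟩ := Nat.exists_eq_add_of_le hm
    induction j with
    | zero => exact h.symm
    | succ j ih =>
      have := ih (by omega)
      show npw x (i + (j + 1) + d) = npw x (i + (j + 1))
      have e1 : i + (j + 1) + d = (i + j + d) + 1 := by ring
      rw [e1]
      show npw x (i + j + d) * x = npw x (i + j) * x
      rw [this]
  intro m r hm
  induction r with
  | zero => simp
  | succ r ih =>
    have e1 : m + (r + 1) * d = (m + r * d) + d := by ring
    rw [e1, h1 _ (by omega), ih]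

/-- in a semigroup with at most `t` elements the `t!`-th powers are idempotent -/
theorem npw_idem {T : Type} [Semigroup T] [Finite T] {t : ℕ} (ht : Nat.card T ≤ t) (x : T) :
    npw x (t.factorial - 1) * npw x (t.factorial - 1) = npw x (t.factorial - 1) := by
  classical
  have := Fintype.ofFinite T
  have hlt : Fintype.card T < Fintype.card (Fin (t + 1)) := by
    rw [Fintype.card_fin, ← Nat.card_eq_fintype_card]; omega
  obtain ⟨a, b, hab, he⟩ := Fintype.exists_ne_map_eq_of_card_lt (fun i : Fin (t + 1) => npw x i) hlt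
  have key : ∀ a b : ℕ, a < b → b ≤ t → npw x a = npw x b →
      npw x (t.factorial - 1) * npw x (t.factorial - 1) = npw x (t.factorial - 1) := by
    intro a b hlt2 hb he
    obtain ⟨d, hd⟩ := Nat.exists_eq_add_of_lt hlt2
    have hp := npw_periodic (x := x) (i := a) (d := d + 1) (by rw [he, hd]; rfl)
    have hdt : d + 1 ∣ t.factorial := Nat.dvd_factorial (by omega) (by omega)
    obtain ⟨r, hr⟩ := hdt
    have hfac : t ≤ t.factorial := Nat.self_le_factorial t
    rw [npw_add]
    have e1 : t.factorial - 1 + (t.factorial - 1) + 1 = (t.factorial - 1) + r * (d + 1) := by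
      have := Nat.factorial_pos t
      rw [mul_comm r, ← hr]; omega
    rw [e1]
    exact hp _ _ (by omega)
  have hne : (a : ℕ) ≠ b := fun h => hab (Fin.ext h)
  have ha := a.2
  have hb := b.2
  rcases Nat.lt_or_gt_of_ne hne with h1 | h1
  · exact key a b h1 (by omega) he
  · exact key b a h1 (by omega) he.symm

/-- `N` is a homomorphic image of a finite product of semigroups with at most `t` elements. -/
def Cov (t : ℕ) (N : Type) [Semigroup N] : Prop :=
  ∃ (n : ℕ) (T : Fin n → FinSg), (∀ c, Nat.card (T c) ≤ t) ∧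
    ∃ f : (∀ c, T c) →ₙ* N, Function.Surjective f

/-- all (nonempty) subsemigroups of powers of `M` are covered. -/
def Good (t : ℕ) (M : Type) [Semigroup M] : Prop :=
  ∀ (k : ℕ) (S : Subsemigroup (Fin (k + 1) → M)), (S : Set (Fin (k + 1) → M)).Nonempty → Cov t S

theorem Cov.of_surj {t : ℕ} {N N' : Type} [Semigroup N] [Semigroup N'] (h : Cov t N)
    (g : N →ₙ* N') (hg : Function.Surjective g) : Cov t N' := by
  obtain ⟨n, T, hT, f, hf⟩ := h
  exact ⟨n, T, hT, g.comp f, hg.comp hf⟩

theorem Cov.idem {t : ℕ} {N : Type} [Semigroup N] (h : Cov t N) (x : N) :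
    npw x (t.factorial - 1) * npw x (t.factorial - 1) = npw x (t.factorial - 1) := by
  obtain ⟨n, T, hT, f, hf⟩ := h
  obtain ⟨y, rfl⟩ := hf x
  rw [← map_npw, ← map_mul]
  congr 1
  funext c
  rw [Pi.mul_apply, pi_npw]
  exact npw_idem (hT c) _

theorem Good.sub {t : ℕ} {L M : Type} [Semigroup L] [Semigroup M] (h : Good t M)
    (g : L →ₙ* M) (hg : Function.Injective g) : Good t L := by
  intro k S hS
  let G : (Fin (k + 1) → L) →ₙ* (Fin (k + 1) → M) :=
    ⟨fun z i => g (z i), fun z w => by funext i; simp⟩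
  have hG : Function.Injective G := fun z w hzw => by
    funext i; exact hg (congrFun hzw i)
  have hc := h k (S.map G) (by
    obtain ⟨z, hz⟩ := hS
    exact ⟨G z, Subsemigroup.mem_map_of_mem G hz⟩)
  have hex : ∀ z : S.map G, ∃ w : S, G w.1 = z.1 := by
    rintro ⟨z, hz⟩
    obtain ⟨w, hw, rfl⟩ := Subsemigroup.mem_map.1 hz
    exact ⟨⟨w, hw⟩, rfl⟩
  choose φ hφ using hex
  refine hc.of_surj ⟨φ, ?_⟩ ?_
  · intro z w
    apply Subtype.ext
    apply hG
    rw [hφ]
    show z.1 * w.1 = G ((φ z).1 * (φ w).1)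
    rw [map_mul, hφ, hφ]
  · intro w
    refine ⟨⟨G w.1, Subsemigroup.mem_map_of_mem G w.2⟩, ?_⟩
    apply Subtype.ext
    apply hG
    exact hφ _

theorem Good.cov {t : ℕ} {M : Type} [Semigroup M] [Nonempty M] (h : Good t M) : Cov t M := by
  have hc := h 0 ⊤ (by obtain ⟨a⟩ := ‹Nonempty M›; exact ⟨fun _ => a, trivial⟩)
  refine hc.of_surj ⟨fun z => z.1 0, fun _ _ => rfl⟩ ?_
  intro a
  exact ⟨⟨fun _ => a, trivial⟩, rfl⟩

/-- the local monoid `e M e` -/
def Loc {M : Type} [Semigroup M] (e : M) (_he : e * e = e) : Type :=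
  {x : M // e * x = x ∧ x * e = x}

instance Loc.monoid {M : Type} [Semigroup M] (e : M) (he : e * e = e) : Monoid (Loc e he) where
  mul x y := ⟨x.1 * y.1, by rw [← mul_assoc, x.2.1], by rw [mul_assoc, y.2.2]⟩
  mul_assoc x y z := Subtype.ext (mul_assoc _ _ _)
  one := ⟨e, he, he⟩
  one_mul x := Subtype.ext x.2.1
  mul_one x := Subtype.ext x.2.2

theorem Loc.val_mul {M : Type} [Semigroup M] {e : M} {he : e * e = e} (x y : Loc e he) :
    (x * y).1 = x.1 * y.1 := rfl

theorem Loc.val_one {M : Type} [Semigroup M] {e : M} {he : e * e = e} :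
    (1 : Loc e he).1 = e := rfl

instance Loc.finite {M : Type} [Semigroup M] [Finite M] (e : M) (he : e * e = e) :
    Finite (Loc e he) := Subtype.finite

/-- the map `x ↦ e x e` -/
def Loc.mk' {M : Type} [Semigroup M] (e : M) (he : e * e = e) (x : M) : Loc e he :=
  ⟨e * x * e, by rw [← mul_assoc, ← mul_assoc, he], by rw [mul_assoc, he]⟩

theorem Loc.good {M : Type} [Semigroup M] {t : ℕ} (h : Good t M) (e : M) (he : e * e = e) :
    Good t (Loc e he) :=
  h.sub ⟨fun x => x.1, fun _ _ => rfl⟩ (fun _ _ hxy => Subtype.ext hxy)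

/-- filters of a finite product are products of filters -/
theorem filter_diag {n : ℕ} {T : Fin n → Type} [∀ c, Semigroup (T c)] (F : (∀ c, T c) → Prop)
    (hF : ∀ x y, F (x * y) ↔ F x ∧ F y) (x0 : ∀ c, T c) (h0 : F x0) (y : Fin n → ∀ c, T c)
    (hy : ∀ c, F (y c)) : F (fun c => y c c) := by
  classical
  have swap : ∀ (x z : ∀ c, T c) (c : Fin n), F x → F z → F (Function.update x c (z c)) := by
    intro x z c hx hz
    have h1 : F (z * x * z * x * z) := by
      rw [hF, hF, hF, hF]; exact ⟨⟨⟨⟨hz, hx⟩, hz⟩, hx⟩, hz⟩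
    have h2 : z * x * z * x * z = Function.update z c (z c * x c) * Function.update x c (z c) *
        Function.update (z * x * z) c (x c * z c) := by
      funext d
      by_cases hd : d = c
      · subst hd; simp [mul_assoc]
      · simp [hd, mul_assoc]
    rw [h2, hF, hF] at h1
    exact h1.1.2
  have key : ∀ s : Finset (Fin n), F (fun c => if c ∈ s then y c c else x0 c) := by
    intro s
    induction s using Finset.induction_on with
    | empty => simpa using h0
    | insert c s hc ih =>
      have h3 := swap _ (y c) c ih (hy c)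
      convert h3 using 1
      funext d
      by_cases hd : d = c
      · subst hd; simp
      · simp [hd, Finset.mem_insert]
  simpa using key Finset.univ

theorem isUnit_of_good {L : Type} [Monoid L] [Finite L] {t : ℕ} (ht : 1 ≤ t) (h : Good t L)
    (b : L) : IsUnit b := by
  classical
  by_contra hb
  let S : Subsemigroup (Fin (t + 1) → L) :=
    { carrier := {z | ∃ i, ¬ IsUnit (z i)}
      mul_mem' := by
        rintro z w ⟨i, hi⟩ -
        exact ⟨i, fun h => hi (IsUnit.mul_iff.1 h).1⟩ }
  obtain ⟨n, T, hT, f, hf⟩ := h t S ⟨fun _ => b, 0, hb⟩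
  let p : Fin (t + 1) → S := fun j => ⟨Function.update 1 j b, j, by simpa using hb⟩
  choose x hx using fun j => hf (p j)
  have hpig : ∀ c, ∃ i j : Fin (t + 1), i ≠ j ∧ x i c = x j c := by
    intro c
    have := Fintype.ofFinite (T c)
    have hlt : Fintype.card (T c) < Fintype.card (Fin (t + 1)) := by
      rw [Fintype.card_fin, ← Nat.card_eq_fintype_card]; have := hT c; omega
    obtain ⟨i, j, hij, he⟩ := Fintype.exists_ne_map_eq_of_card_lt (fun i => x i c) hlt
    exact ⟨i, j, hij, he⟩
  choose i j hij hxx using hpig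
  obtain ⟨l, hl⟩ := (f fun c => x (i c) c).2
  apply hl
  have hpu : ∀ j, j ≠ l → IsUnit ((f (x j)).1 l) := by
    intro j hj
    rw [hx]
    simp [p, Function.update_of_ne hj.symm]
  have hex : ∃ j : Fin (t + 1), j ≠ l := by
    obtain ⟨t', rfl⟩ : ∃ t', t = t' + 1 := ⟨t - 1, by omega⟩
    exact exists_ne l
  obtain ⟨j0, hj0⟩ := hex
  -- choose for every coordinate an index different from `l`
  have hch : ∀ c, ∃ m : Fin (t + 1), m ≠ l ∧ x m c = x (i c) c := by
    intro c
    by_cases h1 : i c = l
    · exact ⟨j c, fun h2 => hij c (h1.trans h2.symm), (hxx c).symm⟩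
    · exact ⟨i c, h1, rfl⟩
  choose m hm hmx using hch
  have := filter_diag (fun z => IsUnit ((f z).1 l)) (by
    intro z w
    rw [map_mul]
    exact IsUnit.mul_iff) (x j0) (hpu j0 hj0) (fun c => x (m c)) (fun c => hpu _ (hm c))
  have e : (fun c => x (i c) c) = fun c => x (m c) c := by
    funext c; rw [hmx]
  rw [e]
  exact this

/-- prefix products -/
def pre {M : Type} [Semigroup M] (x : ℕ → M) : ℕ → M
  | 0 => x 0
  | k + 1 => pre x k * x (k + 1)

theorem map_pre {M N : Type} [Semigroup M] [Semigroup N] (f : M →ₙ* N) (x : ℕ → M) (k : ℕ) :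
    f (pre x k) = pre (fun i => f (x i)) k := by
  induction k with
  | zero => rfl
  | succ k ih =>
    show f (pre x k * x (k + 1)) = _
    rw [map_mul, ih]; rfl

theorem pi_pre {ι : Type} {T : ι → Type} [∀ i, Semigroup (T i)] (x : ℕ → ∀ i, T i) (k : ℕ) (i : ι) :
    pre x k i = pre (fun j => x j i) k := by
  induction k with
  | zero => rfl
  | succ k ih =>
    show (pre x k * x (k + 1)) i = _
    rw [Pi.mul_apply, ih]; rfl

theorem pre_split {M : Type} [Semigroup M] (x : ℕ → M) (a : ℕ) :
    ∀ k, ∃ w, pre x (a + 1 + k) = pre x a * w := by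
  intro k
  induction k with
  | zero => exact ⟨x (a + 1), rfl⟩
  | succ k ih =>
    obtain ⟨w, hw⟩ := ih
    refine ⟨w * x (a + 1 + k + 1), ?_⟩
    show pre x (a + 1 + k) * x (a + 1 + k + 1) = _
    rw [hw, mul_assoc]

theorem long_idem {T : Type} [Semigroup T] [Finite T] {t : ℕ} (ht : Nat.card T ≤ t) (x : ℕ → T) :
    ∃ a e b : T, e * e = e ∧ pre x t = a * e * b := by
  classical
  have := Fintype.ofFinite T
  have hlt : Fintype.card T < Fintype.card (Fin (t + 1)) := by
    rw [Fintype.card_fin, ← Nat.card_eq_fintype_card]; omega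
  obtain ⟨a, b, hab, he⟩ := Fintype.exists_ne_map_eq_of_card_lt (fun i : Fin (t + 1) => pre x i) hlt
  have key : ∀ a b : ℕ, a < b → b ≤ t → pre x a = pre x b →
      ∃ a e b : T, e * e = e ∧ pre x t = a * e * b := by
    intro a b hlt2 hb he
    obtain ⟨d, hd⟩ := Nat.exists_eq_add_of_lt hlt2
    obtain ⟨w, hw⟩ := pre_split x a d
    have hb2 : a + 1 + d = b := by omega
    rw [hb2, ← he] at hw
    -- pre x a = pre x a * w
    have hpw : ∀ k, pre x a * npw w k = pre x a := by
      intro k
      induction k with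
      | zero => exact hw.symm
      | succ k ih =>
        show pre x a * (npw w k * w) = _
        rw [← mul_assoc, ih, ← hw]
    obtain ⟨d2, hd2⟩ := Nat.exists_eq_add_of_lt (show a < t by omega)
    obtain ⟨w2, hw2⟩ := pre_split x a d2
    refine ⟨pre x a, npw w (t.factorial - 1), w2, npw_idem ht w, ?_⟩
    rw [hpw, ← hw2]
    congr 1
    omega
  have hne : (a : ℕ) ≠ b := fun h => hab (Fin.ext h)
  have ha := a.2
  have hb := b.2
  rcases Nat.lt_or_gt_of_ne hne with h1 | h1
  · exact key a b h1 (by omega) he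
  · exact key b a h1 (by omega) he.symm

theorem Cov.long {N : Type} [Semigroup N] {t : ℕ} (h : Cov t N) (x : ℕ → N) :
    ∃ a e b : N, e * e = e ∧ pre x t = a * e * b := by
  obtain ⟨n, T, hT, f, hf⟩ := h
  choose y hy using fun i => hf (x i)
  choose A E B hE hAB using fun c => long_idem (hT c) (fun i => y i c)
  refine ⟨f A, f E, f B, ?_, ?_⟩
  · rw [← map_mul]; congr 1; funext c; exact hE c
  · rw [← map_mul, ← map_mul]
    have e1 : x = fun i => f (y i) := by funext i; exact (hy i).symm
    rw [e1, ← map_pre]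
    congr 1
    funext c
    rw [pi_pre]
    exact hAB c

theorem comm_of_bad : ∀ (m : ℕ) (G : Type) [Group G] [Finite G], Nat.card G = m →
    (∀ x y : G, (∀ i : ℤ, Commute y (x ^ i * y * x ^ (-i))) → Commute x y) →
    ∀ x y : G, Commute x y := by
  intro m
  induction m using Nat.strong_induction_on with
  | _ m ih =>
    intro G _ _ hm hbad
    -- proper subgroups are commutative
    have hsub : ∀ H : Subgroup G, H ≠ ⊤ → ∀ x ∈ H, ∀ y ∈ H, Commute x y := by
      intro H hH x hx y hy
      have hlt : Nat.card H < m := by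
        rw [← hm]
        refine lt_of_le_of_ne (Subgroup.card_le_card_group H) ?_
        intro he
        exact hH (Subgroup.eq_top_of_card_eq H he)
      have := ih _ hlt H rfl (by
        intro a b hab
        have h1 := hbad a.1 b.1 (fun i => by
          have h2 := congrArg Subtype.val (hab i)
          show b.1 * (a.1 ^ i * b.1 * a.1 ^ (-i)) = a.1 ^ i * b.1 * a.1 ^ (-i) * b.1
          simpa using h2)
        exact Subtype.ext h1) ⟨x, hx⟩ ⟨y, hy⟩
      exact congrArg Subtype.val this
    have hnorm : ∀ H : Subgroup G, H.Normal → H ≠ ⊤ → H ≤ Subgroup.center G := by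
      intro H hn hH y hy
      rw [Subgroup.mem_center_iff]
      intro x
      refine hbad x y (fun i => hsub H hH y hy _ ?_)
      have := hn.conj_mem y hy (x ^ i)
      simpa [zpow_neg] using this
    by_cases hp : ∃ p : ℕ, p.Prime ∧ IsPGroup p G
    · obtain ⟨p, hp, hpG⟩ := hp
      by_contra hnc
      have hfact : Fact p.Prime := ⟨hp⟩
      have hZ : Subgroup.center G ≠ ⊤ := by
        intro hZ
        apply hnc
        intro x y
        have : y ∈ Subgroup.center G := by rw [hZ]; trivial
        exact Subgroup.mem_center_iff.1 this x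
      have hnt : Nontrivial (G ⧸ Subgroup.center G) := by
        rw [← not_subsingleton_iff_nontrivial]
        intro hs
        exact hZ (QuotientGroup.subgroup_eq_top_of_subsingleton _ hs)
      have hcn := (hpG.to_quotient (Subgroup.center G)).center_nontrivial
      obtain ⟨q, hq⟩ := exists_ne (1 : Subgroup.center (G ⧸ Subgroup.center G))
      obtain ⟨y, hy⟩ := QuotientGroup.mk_surjective q.1
      have hyZ : y ∉ Subgroup.center G := by
        intro hyZ
        apply hq
        apply Subtype.ext
        rw [← hy]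
        exact (QuotientGroup.eq_one_iff y).2 hyZ
      have hcom : ∀ x : G, x * y * x⁻¹ * y⁻¹ ∈ Subgroup.center G := by
        intro x
        rw [← QuotientGroup.eq_one_iff]
        have h1 := Subgroup.mem_center_iff.1 q.2 (x : G ⧸ Subgroup.center G)
        rw [← hy] at h1
        show ((x : G ⧸ Subgroup.center G) * (y : G ⧸ Subgroup.center G) *
          (x : G ⧸ Subgroup.center G)⁻¹ * (y : G ⧸ Subgroup.center G)⁻¹) = 1
        rw [h1]
        group
      apply hyZ
      rw [Subgroup.mem_center_iff]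
      intro x
      refine hbad x y (fun i => ?_)
      have h1 := Subgroup.mem_center_iff.1 (hcom (x ^ i)) y
      -- y * (c) = c * y, c = x^i y x^-i y^-1
      show y * (x ^ i * y * x ^ (-i)) = x ^ i * y * x ^ (-i) * y
      rw [zpow_neg]
      have h2 : x ^ i * y * (x ^ i)⁻¹ = (x ^ i * y * (x ^ i)⁻¹ * y⁻¹) * y := by group
      rw [h2, ← mul_assoc, h1]
    · intro x y
      have hord : ∀ p : ℕ, p.Prime → ¬ p ∣ orderOf (x * y * x⁻¹ * y⁻¹) := by
        intro p hp' hdvd
        have hfact : Fact p.Prime := ⟨hp'⟩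
        let P : Sylow p G := default
        have hPt : (P : Subgroup G) ≠ ⊤ := by
          intro hPt
          apply hp
          refine ⟨p, hp', ?_⟩
          have h3 := P.2
          rw [hPt] at h3
          exact h3.of_equiv Subgroup.topEquiv
        have hP : Subgroup.normalizer (P : Set G) ≤ Subgroup.centralizer (P : Set G) := by
          by_cases hN : Subgroup.normalizer (P : Set G) = ⊤
          · have hnP : (P : Subgroup G).Normal := Subgroup.normalizer_eq_top_iff.1 hN
            have hPc := hnorm _ hnP hPt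
            intro g _
            rw [Subgroup.mem_centralizer_iff]
            intro z hz
            exact (Subgroup.mem_center_iff.1 (hPc hz) g).symm
          · intro g hg
            rw [Subgroup.mem_centralizer_iff]
            intro z hz
            exact hsub _ hN z (Subgroup.le_normalizer hz) g hg
        have hnd := MonoidHom.not_dvd_card_ker_transferSylow P hP
        apply hnd
        refine dvd_trans hdvd ?_
        have hk : x * y * x⁻¹ * y⁻¹ ∈ (MonoidHom.transferSylow P hP).ker := by
          rw [MonoidHom.mem_ker]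
          have hcP : ∀ a b : P, a * b = b * a := fun a b =>
            Subtype.ext (hP (Subgroup.le_normalizer b.2) a a.2)
          simp only [map_mul, map_inv]
          rw [hcP ((MonoidHom.transferSylow P hP) x)]
          group
        have := orderOf_dvd_natCard (⟨_, hk⟩ : (MonoidHom.transferSylow P hP).ker)
        rwa [Subgroup.orderOf_mk] at this
      have h1 : orderOf (x * y * x⁻¹ * y⁻¹) = 1 := by
        by_contra hne
        obtain ⟨p, hp1, hp2⟩ := Nat.exists_prime_and_dvd hne
        exact hord p hp1 hp2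
      rw [orderOf_eq_one_iff] at h1
      show x * y = y * x
      have h2 : x * y = (x * y * x⁻¹ * y⁻¹) * (y * x) := by group
      rw [h2, h1, one_mul]

/-- one step of the decomposition of an element of a product -/
theorem step_mul {n : ℕ} {T : Fin n → Type} [∀ c, Semigroup (T c)] {M : Type} [Semigroup M]
    (F : (∀ c, T c) →ₙ* M) (E : ∀ c, T c) (hE : E * E = E) (x : ∀ c, T c) (s : Finset (Fin n))
    (c : Fin n) (hc : c ∉ s) :
    F E * F (fun d => if d ∈ insert c s then x d else E d) * F E =
      (F E * F (fun d => if d ∈ s then x d else E d) * F E) *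
        (F E * F (Function.update E c (x c)) * F E) := by
  classical
  simp only [← map_mul]
  congr 1
  have hEd : ∀ d, E d * E d = E d := fun d => congrFun hE d
  have hEd' : ∀ d (y : T d), E d * (E d * y) = E d * y := fun d y => by rw [← mul_assoc, hEd]
  funext d
  by_cases hd : d = c
  · subst hd
    simp [hc, mul_assoc, hEd, hEd']
  · by_cases hds : d ∈ s
    · simp [hd, hds, mul_assoc, hEd, hEd', Finset.mem_insert]
    · simp [hd, hds, mul_assoc, hEd, hEd', Finset.mem_insert]

theorem gen_mem {n : ℕ} {T : Fin n → Type} [∀ c, Semigroup (T c)] {N : Type} [Group N]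
    (f : (∀ c, T c) →ₙ* N) (E : ∀ c, T c) (hE : E * E = E) (hfE : f E = 1) (H : Submonoid N)
    (x : ∀ c, T c) (s : Finset (Fin n)) (h : ∀ c ∈ s, f (Function.update E c (x c)) ∈ H) :
    f (fun d => if d ∈ s then x d else E d) ∈ H := by
  classical
  induction s using Finset.induction_on with
  | empty => simpa [hfE] using H.one_mem
  | insert c s hc ih =>
    have h1 := step_mul f E hE x s c hc
    simp only [hfE, one_mul, mul_one] at h1
    rw [h1]
    exact H.mul_mem (ih fun d hd => h d (Finset.mem_insert_of_mem hd))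
      (h c (Finset.mem_insert_self _ _))

theorem cross_comm {n : ℕ} {T : Fin n → Type} [∀ c, Semigroup (T c)] {N : Type} [Group N]
    (f : (∀ c, T c) →ₙ* N) (E : ∀ c, T c) (hE : E * E = E) (hfE : f E = 1) {c d : Fin n}
    (hcd : c ≠ d) (a : T c) (b : T d) :
    f (Function.update E c a) * f (Function.update E d b) =
      f (Function.update E d b) * f (Function.update E c a) := by
  classical
  have hEd : ∀ d, E d * E d = E d := fun d => congrFun hE d
  have hEd' : ∀ d (y : T d), E d * (E d * y) = E d * y := fun d y => by rw [← mul_assoc, hEd]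
  have h1 : f (E * Function.update E c a * Function.update E d b * E) =
      f (E * Function.update E d b * Function.update E c a * E) := by
    congr 1
    funext k
    by_cases hk : k = c
    · subst hk; simp [hcd, mul_assoc, hEd, hEd']
    · by_cases hk2 : k = d
      · subst hk2; simp [hk, mul_assoc, hEd, hEd']
      · simp [hk, hk2]
  simpa [hfE] using h1

theorem central_of_cover {N : Type} [Group N] {n : ℕ} {T : Fin n → Type} [∀ c, Semigroup (T c)]
    (f : (∀ c, T c) →ₙ* N) (hf : Function.Surjective f) (E : ∀ c, T c) (hE : E * E = E)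
    (hfE : f E = 1) (A0 : Subgroup N) (hcomm : ∀ a ∈ A0, ∀ b ∈ A0, a * b = b * a)
    (hcyc : ∀ v, v ∉ A0 → ∀ w, ∃ k : ℕ, w * v ^ k ∈ A0) (hne : ∃ v, v ∉ A0) :
    ∃ c, ∀ x : ∀ c, T c, f (Function.update x c (E c)) ∈ Subgroup.center N := by
  classical
  obtain ⟨v0, hv0⟩ := hne
  obtain ⟨x0, rfl⟩ := hf v0
  have hex : ∃ c, f (Function.update E c (x0 c)) ∉ A0 := by
    by_contra hall
    push Not at hall
    apply hv0
    have := gen_mem f E hE hfE A0.toSubmonoid x0 Finset.univ (fun c _ => hall c)
    simpa using this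
  obtain ⟨c, hc⟩ := hex
  set v := f (Function.update E c (x0 c)) with hv
  have hstar : ∀ w w' : N, w * v = v * w → w' * v = v * w' → w * w' = w' * w := by
    intro w w' hw hw'
    obtain ⟨a, ha⟩ := hcyc v hc w
    obtain ⟨b, hb⟩ := hcyc v hc w'
    have h1 := hcomm _ ha _ hb
    have cw : Commute w v := hw
    have cw' : Commute w' v := hw'
    have h2 : w * v ^ a * (w' * v ^ b) = w * w' * (v ^ (a + b)) := by
      rw [pow_add, mul_assoc, ← mul_assoc (v ^ a) w', ← (cw'.pow_right a).eq]
      simp only [mul_assoc]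
    have h3 : w' * v ^ b * (w * v ^ a) = w' * w * (v ^ (a + b)) := by
      rw [add_comm, pow_add, mul_assoc, ← mul_assoc (v ^ b) w, ← (cw.pow_right b).eq]
      simp only [mul_assoc]
    rw [h2, h3] at h1
    exact mul_right_cancel h1
  have hcen : ∀ d, d ≠ c → ∀ a : T d, f (Function.update E d a) ∈ Subgroup.center N := by
    intro d hd a
    rw [Subgroup.mem_center_iff]
    intro g
    obtain ⟨x, rfl⟩ := hf g
    have := gen_mem f E hE hfE (Submonoid.centralizer {f (Function.update E d a)}) x
      Finset.univ (fun k _ => by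
        rw [Submonoid.mem_centralizer_iff]
        intro z hz
        rw [Set.mem_singleton_iff] at hz
        subst hz
        by_cases hk : k = d
        · subst hk
          exact hstar _ _ (cross_comm f E hE hfE hd _ _) (cross_comm f E hE hfE hd _ _)
        · exact cross_comm f E hE hfE (Ne.symm hk) _ _)
    rw [Submonoid.mem_centralizer_iff] at this
    have h2 := this _ (Set.mem_singleton _)
    simpa using h2.symm
  refine ⟨c, fun x => ?_⟩
  have := gen_mem f E hE hfE (Subgroup.center N).toSubmonoid x (Finset.univ.erase c)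
    (fun k hk => hcen k (Finset.ne_of_mem_erase hk) _)
  have e : Function.update x c (E c) =
      fun d => if d ∈ Finset.univ.erase c then x d else E d := by
    funext k
    by_cases hk : k = c
    · subst hk; simp
    · simp [hk]
  rw [e]
  exact this

theorem split_cover {N : Type} [Group N] {n : ℕ} {T : Fin n → Type} [∀ c, Semigroup (T c)]
    (f : (∀ c, T c) →ₙ* N) (E : ∀ c, T c) (hE : E * E = E)
    (hfE : f E = 1) (x : ∀ c, T c) (c : Fin n) :
    f x = f (Function.update x c (E c)) * f (Function.update E c (x c)) := by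
  classical
  have h1 := step_mul f E hE x (Finset.univ.erase c) c (Finset.notMem_erase _ _)
  simp only [hfE, one_mul, mul_one] at h1
  rw [Finset.insert_erase (Finset.mem_univ c)] at h1
  simp only [Finset.mem_univ, if_true] at h1
  rw [h1]
  congr 2
  funext k
  by_cases hk : k = c
  · subst hk; simp
  · simp [hk]

theorem comm_of_good_aux {G : Type} [Group G] [Finite G] {t : ℕ} (h : Good t G)
    (x y : G) (p : ℕ) (hp : p.Prime) (hconj : ∀ i : ℤ, Commute y (x ^ i * y * x ^ (-i)))
    (hpc : Commute (x ^ p) y) (hnc : ¬ Commute x y) : False := by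
  classical
  let B : Subgroup G := Subgroup.closure (Set.range fun i : ℤ => x ^ i * y * x ^ (-i))
  have hyB : y ∈ B := Subgroup.subset_closure ⟨0, by simp⟩
  have hBconj : ∀ (i : ℤ) (b : G), b ∈ B → x ^ i * b * x ^ (-i) ∈ B := by
    intro i b hb
    have hle : B ≤ B.comap (MulAut.conj (x ^ i)).toMonoidHom := by
      rw [Subgroup.closure_le]
      rintro _ ⟨j, rfl⟩
      show (MulAut.conj (x ^ i)).toMonoidHom _ ∈ B
      apply Subgroup.subset_closure
      refine ⟨i + j, ?_⟩
      show x ^ (i + j) * y * x ^ (-(i + j)) = x ^ i * (x ^ j * y * x ^ (-j)) * (x ^ i)⁻¹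
      group
    have h1 := hle hb
    rw [Subgroup.mem_comap] at h1
    have h2 : x ^ i * b * (x ^ i)⁻¹ ∈ B := h1
    simpa [zpow_neg] using h2
  have hgen : ∀ i j : ℤ, Commute (x ^ i * y * x ^ (-i)) (x ^ j * y * x ^ (-j)) := by
    intro i j
    have h1 := hconj (j - i)
    have e1 : x ^ j * y * x ^ (-j) = x ^ i * (x ^ (j - i) * y * x ^ (-(j - i))) * x ^ (-i) := by
      group
    rw [e1]
    show x ^ i * y * x ^ (-i) * (x ^ i * (x ^ (j - i) * y * x ^ (-(j - i))) * x ^ (-i)) =
      x ^ i * (x ^ (j - i) * y * x ^ (-(j - i))) * x ^ (-i) * (x ^ i * y * x ^ (-i))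
    have e2 : x ^ i * y * x ^ (-i) * (x ^ i * (x ^ (j - i) * y * x ^ (-(j - i))) * x ^ (-i)) =
        x ^ i * (y * (x ^ (j - i) * y * x ^ (-(j - i)))) * x ^ (-i) := by group
    rw [e2, h1.eq]
    group
  have hBcomm : ∀ a ∈ B, ∀ b ∈ B, Commute a b := by
    have h1 : B ≤ Subgroup.centralizer (Set.range fun i : ℤ => x ^ i * y * x ^ (-i)) := by
      rw [Subgroup.closure_le]
      rintro _ ⟨j, rfl⟩
      show _ ∈ Subgroup.centralizer _
      rw [Subgroup.mem_centralizer_iff]
      rintro _ ⟨i, rfl⟩
      exact hgen i j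
    have h2 : B ≤ Subgroup.centralizer (B : Set G) := by
      rw [Subgroup.closure_le]
      intro g hg
      show g ∈ Subgroup.centralizer _
      rw [Subgroup.mem_centralizer_iff]
      intro b hb
      have := h1 hb
      rw [Subgroup.mem_centralizer_iff] at this
      exact (this g hg).symm
    intro a ha b hb
    have := h2 hb
    rw [Subgroup.mem_centralizer_iff] at this
    exact this a ha
  have hpB : ∀ b ∈ B, Commute (x ^ (p : ℤ)) b := by
    have h1 : B ≤ Subgroup.centralizer {x ^ (p : ℤ)} := by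
      rw [Subgroup.closure_le]
      rintro _ ⟨j, rfl⟩
      show _ ∈ Subgroup.centralizer _
      rw [Subgroup.mem_centralizer_iff]
      intro z hz
      rw [Set.mem_singleton_iff] at hz
      subst hz
      have hpc' : Commute (x ^ (p : ℤ)) y := by rw [zpow_natCast]; exact hpc
      have c1 : Commute (x ^ (p : ℤ)) (x ^ j) := (Commute.refl x).zpow_zpow _ _
      have c2 : Commute (x ^ (p : ℤ)) (x ^ (-j)) := (Commute.refl x).zpow_zpow _ _
      exact (c1.mul_right hpc').mul_right c2
    intro b hb
    have := h1 hb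
    rw [Subgroup.mem_centralizer_iff] at this
    exact this _ (Set.mem_singleton _)
  -- exponents
  have hemul : ∀ (s s' : ℤ) (z z' : G), x ^ (-s) * z ∈ B → x ^ (-s') * z' ∈ B →
      x ^ (-(s + s')) * (z * z') ∈ B := by
    intro s s' z z' hz hz'
    have h1 := B.mul_mem (hBconj (-s') _ hz) hz'
    have e1 : x ^ (-s') * (x ^ (-s) * z) * x ^ (-(-s')) * (x ^ (-s') * z') =
        x ^ (-(s + s')) * (z * z') := by group
    rwa [e1] at h1
  have heinv : ∀ (s : ℤ) (z : G), x ^ (-s) * z ∈ B → x ^ (-(-s)) * z⁻¹ ∈ B := by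
    intro s z hz
    have h1 := hBconj s _ (B.inv_mem hz)
    have e1 : x ^ s * (x ^ (-s) * z)⁻¹ * x ^ (-s) = x ^ (-(-s)) * z⁻¹ := by group
    rwa [e1] at h1
  let N : Subgroup (Fin (t + 1) → G) :=
    { carrier := {z | ∃ s : ℤ, ∀ i, x ^ (-s) * z i ∈ B}
      mul_mem' := by
        rintro z z' ⟨s, hs⟩ ⟨s', hs'⟩
        exact ⟨s + s', fun i => hemul _ _ _ _ (hs i) (hs' i)⟩
      one_mem' := ⟨0, fun i => by simpa using B.one_mem⟩
      inv_mem' := by
        rintro z ⟨s, hs⟩
        exact ⟨-s, fun i => heinv _ _ (hs i)⟩ }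
  let A0 : Subgroup N :=
    { carrier := {z | ∃ s : ℤ, ∀ i, x ^ (-((p : ℤ) * s)) * z.1 i ∈ B}
      mul_mem' := by
        rintro z z' ⟨s, hs⟩ ⟨s', hs'⟩
        refine ⟨s + s', fun i => ?_⟩
        have := hemul _ _ _ _ (hs i) (hs' i)
        rwa [← mul_add] at this
      one_mem' := ⟨0, fun i => by simpa using B.one_mem⟩
      inv_mem' := by
        rintro z ⟨s, hs⟩
        refine ⟨-s, fun i => ?_⟩
        have := heinv _ _ (hs i)
        rwa [← mul_neg] at this }
  have hA0comm : ∀ a ∈ A0, ∀ b ∈ A0, a * b = b * a := by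
    rintro a ⟨s, hs⟩ b ⟨s', hs'⟩
    apply Subtype.ext
    funext i
    show a.1 i * b.1 i = b.1 i * a.1 i
    have ea : a.1 i = x ^ ((p : ℤ) * s) * (x ^ (-((p : ℤ) * s)) * a.1 i) := by group
    have eb : b.1 i = x ^ ((p : ℤ) * s') * (x ^ (-((p : ℤ) * s')) * b.1 i) := by group
    have c0 : Commute (x ^ ((p : ℤ) * s)) (x ^ ((p : ℤ) * s')) := (Commute.refl x).zpow_zpow _ _
    have c1 : ∀ (s : ℤ) (b : G), b ∈ B → Commute (x ^ ((p : ℤ) * s)) b := by
      intro s b hb
      rw [zpow_mul]
      exact (hpB b hb).zpow_left s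
    have c2 := hBcomm _ (hs i) _ (hs' i)
    have : Commute (x ^ ((p : ℤ) * s) * (x ^ (-((p : ℤ) * s)) * a.1 i))
        (x ^ ((p : ℤ) * s') * (x ^ (-((p : ℤ) * s')) * b.1 i)) := by
      refine Commute.mul_left (Commute.mul_right c0 (c1 _ _ (hs' i))) (Commute.mul_right ?_ c2)
      exact (c1 _ _ (hs i)).symm
    rw [← ea, ← eb] at this
    exact this
  have hcyc : ∀ v : N, v ∉ A0 → ∀ w : N, ∃ k : ℕ, w * v ^ k ∈ A0 := by
    intro v hv w
    obtain ⟨sv, hsv⟩ := v.2
    obtain ⟨sw, hsw⟩ := w.2
    have hndvd : ¬ (p : ℤ) ∣ sv := by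
      rintro ⟨r, rfl⟩
      exact hv ⟨r, hsv⟩
    have hpow : ∀ k : ℕ, ∀ i, x ^ (-((k : ℤ) * sv)) * ((v ^ k : N) : Fin (t + 1) → G) i ∈ B := by
      intro k
      induction k with
      | zero => intro i; simpa using B.one_mem
      | succ k ih =>
        intro i
        have := hemul _ _ _ _ (ih i) (hsv i)
        have e1 : ((k : ℤ) * sv + sv) = ((k + 1 : ℕ) : ℤ) * sv := by push_cast; ring
        rw [e1] at this
        rw [pow_succ]
        exact this
    have hex : ∃ k : ℕ, (p : ℤ) ∣ sw + (k : ℤ) * sv := by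
      have : Fact p.Prime := ⟨hp⟩
      have hne : (sv : ZMod p) ≠ 0 := by
        rw [Ne, ZMod.intCast_zmod_eq_zero_iff_dvd]
        exact hndvd
      refine ⟨((-(sw : ZMod p)) / (sv : ZMod p)).val, ?_⟩
      rw [← ZMod.intCast_zmod_eq_zero_iff_dvd]
      push_cast
      rw [ZMod.natCast_zmod_val]
      field_simp
      ring
    obtain ⟨k, r, hr⟩ := hex
    refine ⟨k, r, fun i => ?_⟩
    have := hemul _ _ _ _ (hsw i) (hpow k i)
    rw [hr] at this
    exact this
  let X : N := ⟨fun _ => x, 1, fun i => by simpa using B.one_mem⟩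
  have hX : X ∉ A0 := by
    rintro ⟨s, hs⟩
    have h1 := hs 0
    have h2 : x ^ (-((p : ℤ) * s)) * x ∈ B := h1
    have c1 := hBcomm _ h2 _ hyB
    have c2 : Commute (x ^ ((p : ℤ) * s)) y := by
      rw [zpow_mul]
      exact (hpB y hyB).zpow_left s
    have c3 := Commute.mul_left c2 c1
    have e1 : x ^ ((p : ℤ) * s) * (x ^ (-((p : ℤ) * s)) * x) = x := by group
    rw [e1] at c3
    exact hnc c3
  obtain ⟨n, T, hT, f, hf⟩ := h t N.toSubmonoid.toSubsemigroup ⟨1, N.one_mem⟩
  let f' : (∀ c, T c) →ₙ* N := f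
  have hf' : Function.Surjective f' := hf
  obtain ⟨x1, hx1⟩ := hf' 1
  let E : ∀ c, T c := npw x1 (t.factorial - 1)
  have hE : E * E = E := by
    funext c
    rw [Pi.mul_apply]
    show npw x1 (t.factorial - 1) c * npw x1 (t.factorial - 1) c = npw x1 (t.factorial - 1) c
    rw [pi_npw]
    exact npw_idem (hT c) _
  have hfE : f' E = 1 := by
    show f' (npw x1 (t.factorial - 1)) = 1
    rw [map_npw, hx1]
    generalize t.factorial - 1 = m
    induction m with
    | zero => rfl
    | succ m ih => show npw 1 m * 1 = (1 : N); rw [ih, mul_one]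
  obtain ⟨c, hc⟩ := central_of_cover f' hf' E hE hfE A0 hA0comm hcyc ⟨X, hX⟩
  let Y : Fin (t + 1) → N := fun j => ⟨Function.update 1 j y, 0, fun i => by
    by_cases hij : i = j
    · subst hij; simpa using hyB
    · simpa [hij] using B.one_mem⟩
  choose z hz using fun j => hf' (Y j)
  have := Fintype.ofFinite (T c)
  have hlt : Fintype.card (T c) < Fintype.card (Fin (t + 1)) := by
    rw [Fintype.card_fin, ← Nat.card_eq_fintype_card]; have := hT c; omega
  obtain ⟨i, j, hij, he⟩ := Fintype.exists_ne_map_eq_of_card_lt (fun i => z i c) hlt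
  have h1 := split_cover f' E hE hfE (z i) c
  have h2 := split_cover f' E hE hfE (z j) c
  rw [hz] at h1 h2
  rw [← he] at h2
  have h3 : Y i * (Y j)⁻¹ ∈ Subgroup.center N := by
    rw [h1, h2]
    have e1 : f' (Function.update (z i) c (E c)) * f' (Function.update E c (z i c)) *
        (f' (Function.update (z j) c (E c)) * f' (Function.update E c (z i c)))⁻¹ =
        f' (Function.update (z i) c (E c)) * (f' (Function.update (z j) c (E c)))⁻¹ := by group
    rw [e1]
    exact (Subgroup.center N).mul_mem (hc _) ((Subgroup.center N).inv_mem (hc _))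
  rw [Subgroup.mem_center_iff] at h3
  have h4 := congrFun (congrArg Subtype.val (h3 X)) i
  have h5 : x * ((Y i).1 i * ((Y j).1 i)⁻¹) = ((Y i).1 i * ((Y j).1 i)⁻¹) * x := h4
  have e1 : (Y i).1 i = y := by
    show Function.update (1 : Fin (t + 1) → G) i y i = y
    simp
  have e2 : (Y j).1 i = 1 := by
    show Function.update (1 : Fin (t + 1) → G) j y i = 1
    rw [Function.update_of_ne hij]; rfl
  rw [e1, e2, inv_one, mul_one] at h5
  exact hnc h5

theorem comm_of_good {G : Type} [Group G] [Finite G] {t : ℕ} (h : Good t G) :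
    ∀ x y : G, x * y = y * x := by
  classical
  intro x y
  refine comm_of_bad (Nat.card G) G rfl (fun x y hconj => ?_) x y
  by_contra hnc
  have hex : ∃ s : ℕ, 0 < s ∧ Commute (x ^ s) y :=
    ⟨orderOf x, orderOf_pos x, by rw [pow_orderOf_eq_one]; exact Commute.one_left y⟩
  obtain ⟨hs1, hs2⟩ := Nat.find_spec hex
  have hmin := fun m => Nat.find_min (m := m) hex
  set s := Nat.find hex with hsdef
  have hs3 : s ≠ 1 := by
    intro h1
    rw [h1, pow_one] at hs2
    exact hnc hs2
  obtain ⟨p, hp, r, hr⟩ := Nat.exists_prime_and_dvd hs3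
  have hr0 : 0 < r := by
    rcases Nat.eq_zero_or_pos r with h0 | h0
    · rw [h0, mul_zero] at hr; omega
    · exact h0
  have hrs : r < s := by
    rw [hr]
    have := hp.two_le
    nlinarith
  refine comm_of_good_aux h (x ^ r) y p hp (fun i => ?_) ?_ ?_
  · have := hconj ((r : ℤ) * i)
    rw [← zpow_natCast x r, ← zpow_mul, ← zpow_mul, mul_neg]
    exact this
  · rw [← pow_mul, mul_comm, ← hr]
    exact hs2
  · intro hc
    exact hmin r hrs ⟨hr0, hc⟩

/-- A function on a product which is a sum of functions of the coordinates and takes values in an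
independent set depends on one coordinate only; here: that coordinate has many elements. -/
theorem comb {V : Type} [CommGroup V] {n K : ℕ} {T : Fin n → Type}
    (ψ : ∀ c, T c → V) (k0 : V) (R : Option (Fin K) → V)
    (hR1 : ∀ a b (i j : Fin K), i ≠ j → R a * R b = R (some i) * R (some j) →
      (a = some i ∧ b = some j) ∨ (a = some j ∧ b = some i))
    (hR2 : ∀ l m : Fin K, R (some l) = R (some m) → l = m)
    (hyp : ∀ x : ∀ c, T c, ∃ a, k0 * ∏ c, ψ c (x c) = R a)
    (x : Fin K → ∀ c, T c) (hx : ∀ j, k0 * ∏ c, ψ c (x j c) = R (some j)) (hK : 2 ≤ K) :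
    ∃ c, Function.Injective fun j => x j c := by
  classical
  have hswap : ∀ (y : ∀ c, T c) (c : Fin n) (u : T c),
      k0 * ∏ d, ψ d (Function.update y c u d) = (k0 * ∏ d, ψ d (y d)) * (ψ c u / ψ c (y c)) := by
    intro y c u
    rw [← Finset.mul_prod_erase Finset.univ _ (Finset.mem_univ c),
      ← Finset.mul_prod_erase Finset.univ (fun d => ψ d (y d)) (Finset.mem_univ c)]
    have e1 : ∏ d ∈ Finset.univ.erase c, ψ d (Function.update y c u d) =
        ∏ d ∈ Finset.univ.erase c, ψ d (y d) := by
      refine Finset.prod_congr rfl fun d hd => ?_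
      rw [Function.update_of_ne (Finset.ne_of_mem_erase hd)]
    rw [e1, Function.update_self, div_eq_mul_inv]
    generalize ∏ d ∈ Finset.univ.erase c, ψ d (y d) = Q
    generalize ψ c u = p
    generalize ψ c (y c) = q
    calc k0 * (p * Q) = k0 * (p * Q) * (q * q⁻¹) := by rw [mul_inv_cancel, mul_one]
      _ = k0 * (q * Q) * (p * q⁻¹) := by
        simp only [mul_assoc, mul_left_comm, mul_comm]
  -- the two possibilities
  have hD : ∀ (c : Fin n) (j i : Fin K), ψ c (x i c) / ψ c (x j c) = 1 ∨
      ψ c (x i c) / ψ c (x j c) = R (some i) / R (some j) := by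
    intro c j i
    by_cases hij : i = j
    · subst hij; left; simp
    obtain ⟨a, ha⟩ := hyp (Function.update (x j) c (x i c))
    obtain ⟨b, hb⟩ := hyp (Function.update (x i) c (x j c))
    rw [hswap, hx] at ha hb
    have h1 : R a * R b = R (some i) * R (some j) := by
      rw [← ha, ← hb]
      generalize ψ c (x i c) = p
      generalize ψ c (x j c) = q
      generalize R (some i) = r
      generalize R (some j) = s
      calc s * (p / q) * (r * (q / p)) = s * r * ((p / q) * (q / p)) := by
            simp only [mul_assoc, mul_left_comm]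
        _ = r * s := by rw [div_mul_div_cancel, div_self', mul_one, mul_comm]
    rcases hR1 a b i j hij h1 with ⟨h2, -⟩ | ⟨h2, -⟩
    · right
      rw [h2] at ha
      rw [← ha]
      simp
    · left
      rw [h2] at ha
      exact mul_eq_left.1 ha
  obtain ⟨j0, i0, hji⟩ : ∃ j i : Fin K, j ≠ i :=
    ⟨⟨0, by omega⟩, ⟨1, by omega⟩, by simp [Fin.ext_iff]⟩
  have hex : ∃ c, ψ c (x i0 c) / ψ c (x j0 c) ≠ 1 := by
    by_contra hall
    push Not at hall
    apply hji
    apply hR2
    rw [← hx j0, ← hx i0]
    congr 1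
    refine Finset.prod_congr rfl fun c _ => ?_
    exact (div_eq_one.1 (hall c)).symm
  obtain ⟨c, hc⟩ := hex
  have hc2 : ψ c (x i0 c) / ψ c (x j0 c) = R (some i0) / R (some j0) := (hD c j0 i0).resolve_left hc
  have hall : ∀ l, ψ c (x l c) / ψ c (x j0 c) = R (some l) / R (some j0) := by
    intro l
    rcases hD c j0 l with h1 | h1
    · rcases hD c l i0 with h2 | h2
      · exfalso
        apply hc
        rw [div_eq_one] at h1 h2 ⊢
        rw [h2, h1]
      · have h3 : ψ c (x l c) = ψ c (x j0 c) := div_eq_one.1 h1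
        rw [h3, hc2] at h2
        have h4 : R (some l) = R (some j0) := by
          have := div_right_inj.1 h2
          exact this.symm
        rw [h1, h4, div_self']
    · exact h1
  refine ⟨c, fun l m hlm => ?_⟩
  apply hR2
  have h1 := hall l
  have h2 := hall m
  simp only at hlm
  rw [hlm, h2] at h1
  exact (div_left_inj.1 h1).symm

/-- the local monoids are commutative groups -/
theorem exists_group_package {M : Type} [Semigroup M] [Finite M] {t : ℕ} (ht : 1 ≤ t)
    (h : Good t M) (e : M) (he : e * e = e) :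
    ∃ (A : Type) (_ : CommGroup A) (v : A → M), Function.Injective v ∧
      (∀ x y, v (x * y) = v x * v y) ∧ v 1 = e ∧ ∀ x : M, ∃ a, v a = e * x * e := by
  have h1 : Good t (Loc e he) := Loc.good h e he
  have h2 : ∀ b : Loc e he, IsUnit b := isUnit_of_good ht h1
  let G : Group (Loc e he) := groupOfIsUnit h2
  have h3 : ∀ x y : Loc e he, x * y = y * x := @comm_of_good (Loc e he) G _ t h1
  exact ⟨Loc e he, { G with mul_comm := h3 }, Subtype.val, Subtype.val_injective,
    fun _ _ => rfl, rfl, fun x => ⟨Loc.mk' e he x, rfl⟩⟩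

theorem efe {M : Type} [Semigroup M] [Finite M] {t : ℕ} (ht : 1 ≤ t)
    (h : Good t M) (e f : M) (he : e * e = e) (hf : f * f = f) : e * f * e = e := by
  classical
  by_contra hne
  obtain ⟨A, C, v, hvi, hval, hone, hmk0⟩ := exists_group_package ht h e he
  choose mk hmk using hmk0
  let hh : A := mk f
  have hh1 : hh ≠ 1 := by
    intro h1
    apply hne
    have := congrArg v h1
    rw [hone, hmk] at this
    exact this
  let S : Subsemigroup (Fin (t + 1) → M) :=
    { carrier := {z | (∀ i, z i * e = z i) ∨ ∃ j, z j * f = z j ∧ ∀ i, i ≠ j → z i * e = z i}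
      mul_mem' := by
        rintro z w - (hw | ⟨j, hj, hw⟩)
        · left; intro i; rw [Pi.mul_apply, mul_assoc, hw]
        · right
          refine ⟨j, by rw [Pi.mul_apply, mul_assoc, hj], fun i hi => ?_⟩
          rw [Pi.mul_apply, mul_assoc, hw i hi] }
  obtain ⟨n, T, hT, g, hg⟩ := h t S ⟨fun _ => e, Or.inl fun _ => he⟩
  obtain ⟨x1, hx1⟩ := hg ⟨fun _ => e, Or.inl fun _ => he⟩
  let E : ∀ c, T c := npw x1 (t.factorial - 1)
  have hE : E * E = E := by
    funext c
    rw [Pi.mul_apply]
    show npw x1 (t.factorial - 1) c * npw x1 (t.factorial - 1) c = npw x1 (t.factorial - 1) c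
    rw [pi_npw]
    exact npw_idem (hT c) _
  have hgE : ∀ l, (g E).1 l = e := by
    have h1 : g E = ⟨fun _ => e, Or.inl fun _ => he⟩ := by
      show g (npw x1 (t.factorial - 1)) = _
      rw [map_npw, hx1]
      generalize t.factorial - 1 = m
      induction m with
      | zero => rfl
      | succ m ih =>
        show npw _ m * _ = _
        rw [ih]
        apply Subtype.ext
        funext l
        exact he
    intro l
    rw [h1]
  have hu : ∀ j : Fin (t + 1), Function.update (fun _ => e) j (e * f) ∈ S := by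
    intro j
    right
    refine ⟨j, by simp [mul_assoc, hf], fun i hi => by simp [hi, he]⟩
  have hv : ∀ j : Fin (t + 1), Function.update (fun _ => e) j (f * e) ∈ S := by
    intro j
    left
    intro i
    by_cases hi : i = j
    · subst hi; simp [mul_assoc, he]
    · simp [hi, he]
  choose X hX using fun j => hg ⟨_, hu j⟩
  choose Y hY using fun j => hg ⟨_, hv j⟩
  let Fl : Fin (t + 1) → (∀ c, T c) →ₙ* M := fun l => ⟨fun x => (g x).1 l, fun x y => by
    rw [map_mul]; rfl⟩
  have hFl : ∀ l x, Fl l x = (g x).1 l := fun _ _ => rfl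
  let Ps : Fin (t + 1) → (∀ c, T c) → A := fun l x => mk (Fl l x)
  have hPs : ∀ l x, Ps l x = ∏ c, Ps l (Function.update E c (x c)) := by
    intro l x
    have key : ∀ s : Finset (Fin n), Ps l (fun d => if d ∈ s then x d else E d) =
        ∏ c ∈ s, Ps l (Function.update E c (x c)) := by
      intro s
      induction s using Finset.induction_on with
      | empty =>
        simp only [Finset.notMem_empty, if_false, Finset.prod_empty]
        apply hvi
        rw [hone]
        show v (mk (Fl l E)) = e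
        rw [hmk, hFl, hgE, he, he]
      | insert c s hc ih =>
        rw [Finset.prod_insert hc, ← ih]
        have h1 := step_mul (Fl l) E hE x s c hc
        simp only [hFl l E, hgE] at h1
        apply hvi
        rw [mul_comm, hval]
        show v (mk _) = v (mk _) * v (mk _)
        rw [hmk, hmk, hmk]
        exact h1
    have := key Finset.univ
    simpa using this
  -- the key computation
  have hk : ∀ (l : Fin (t + 1)) (x : ∀ c, T c),
      ((g x).1 l * e = (g x).1 l → Ps l (x * Y l) / Ps l x * hh⁻¹ = 1) ∧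
      ((g x).1 l * f = (g x).1 l → Ps l (x * Y l) / Ps l x * hh⁻¹ = hh⁻¹) := by
    intro l x
    have e1 : v (Ps l (x * Y l)) = e * (g x).1 l * f * e := by
      show v (mk (Fl l (x * Y l))) = _
      rw [hmk, map_mul, hFl, hFl, hY]
      simp only [Function.update_self, mul_assoc, he]
    have e2 : v (Ps l x) = e * (g x).1 l * e := hmk _
    have e3 : v hh = e * f * e := hmk _
    constructor
    · intro h1
      have h2 : Ps l (x * Y l) = Ps l x * hh := by
        apply hvi
        rw [e1, hval, e2, e3]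
        rw [mul_assoc e _ e, h1]
        nth_rewrite 1 [← h1]
        simp only [mul_assoc]
      rw [h2]
      simp
    · intro h1
      have h2 : Ps l (x * Y l) = Ps l x := by
        apply hvi
        rw [e1, e2, mul_assoc e _ f, h1]
      rw [h2]
      simp
  let R : Option (Fin (t + 1)) → (Fin (t + 1) → A) := fun a l =>
    if a = some l then hh⁻¹ else 1
  have hinv : hh⁻¹ ≠ 1 := by simpa using hh1
  let ψ : ∀ c, T c → (Fin (t + 1) → A) := fun c u l =>
    Ps l (Function.update E c (u * Y l c)) / Ps l (Function.update E c u)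
  have hprod : ∀ (x : ∀ c, T c) (l : Fin (t + 1)),
      ((fun _ => hh⁻¹ : Fin (t + 1) → A) * ∏ c, ψ c (x c)) l = Ps l (x * Y l) / Ps l x * hh⁻¹ := by
    intro x l
    rw [Pi.mul_apply, Finset.prod_apply, hPs l (x * Y l), hPs l x, mul_comm, ← Finset.prod_div_distrib]
    rfl
  have hRval : ∀ x : ∀ c, T c, ∃ a, (fun _ => hh⁻¹ : Fin (t + 1) → A) * ∏ c, ψ c (x c) = R a := by
    intro x
    rcases (g x).2 with h1 | ⟨j, hj, h1⟩
    · refine ⟨none, ?_⟩
      funext l
      rw [hprod, (hk l x).1 (h1 l)]
      rfl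
    · refine ⟨some j, ?_⟩
      funext l
      rw [hprod]
      by_cases hl : l = j
      · subst hl
        rw [(hk l x).2 hj]
        simp [R]
      · rw [(hk l x).1 (h1 l hl)]
        simp [R, Ne.symm hl]
  have hRX : ∀ j, (fun _ => hh⁻¹ : Fin (t + 1) → A) * ∏ c, ψ c (X j c) = R (some j) := by
    intro j
    funext l
    rw [hprod]
    by_cases hl : l = j
    · subst hl
      rw [(hk l (X l)).2 (by rw [hX]; simp [mul_assoc, hf])]
      simp [R]
    · rw [(hk l (X j)).1 (by rw [hX]; simp [hl, he])]
      simp [R, Ne.symm hl]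
  obtain ⟨c, hc⟩ := comb ψ (fun _ => hh⁻¹) R (by
    intro a b i j hij hab
    have h1 : ∀ l, R a l * R b l = R (some i) l * R (some j) l := fun l => congrFun hab l
    have hi := h1 i
    have hj := h1 j
    simp only [R, if_true, Option.some.injEq, hij, if_false, Ne.symm hij, mul_one, one_mul] at hi hj
    by_cases ai : a = some i
    · left
      refine ⟨ai, ?_⟩
      by_contra hb
      have aj : a ≠ some j := by rw [ai]; simpa using hij
      rw [if_neg aj, if_neg hb, one_mul] at hj
      exact hinv hj.symm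
    · right
      by_cases bi : b = some i
      · refine ⟨?_, bi⟩
        by_contra ha
        have bj : b ≠ some j := by rw [bi]; simpa using hij
        rw [if_neg ha, if_neg bj, one_mul] at hj
        exact hinv hj.symm
      · exfalso
        rw [if_neg ai, if_neg bi, one_mul] at hi
        exact hinv hi.symm) (by
    intro l m hlm
    have h1 := congrFun hlm l
    by_contra hne2
    simp only [R, if_true, Option.some.injEq, Ne.symm hne2, if_false] at h1
    exact hinv h1) hRval X hRX (by omega)
  have := Fintype.ofFinite (T c)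
  have h1 := Fintype.card_le_of_injective _ hc
  rw [Fintype.card_fin, ← Nat.card_eq_fintype_card] at h1
  have := hT c
  omega

theorem mul_npw_absorb {M : Type} [Semigroup M] (e z : M) (he : e * e = e) (k : ℕ) :
    e * npw (e * z) k = npw (e * z) k := by
  induction k with
  | zero => show e * (e * z) = e * z; rw [← mul_assoc, he]
  | succ k ih =>
    show e * (npw (e * z) k * (e * z)) = _
    rw [← mul_assoc, ih]; rfl

theorem npw_mul_absorb {M : Type} [Semigroup M] (f w : M) (hf : f * f = f) (k : ℕ) :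
    npw (w * f) k * f = npw (w * f) k := by
  induction k with
  | zero => show w * f * f = w * f; rw [mul_assoc, hf]
  | succ k ih =>
    show (npw (w * f) k * (w * f)) * f = npw (w * f) k * (w * f)
    rw [mul_assoc, mul_assoc, hf]

section laws

variable {M : Type} [Semigroup M] [Finite M] {t : ℕ} (ht : 1 ≤ t) (h : Good t M)
include ht h

theorem efg_law (e f g : M) (he : e * e = e) (hf : f * f = f) (hg : g * g = g) :
    e * f * g = e * g := by
  have h1 : (f * g) * (f * g) = f * g := by
    rw [← mul_assoc, efe ht h f g hf hg]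
  have h2 := efe ht h e (f * g) he h1
  have h3 := efe ht h g e hg he
  calc e * f * g = e * f * (g * e * g) := by rw [h3]
    _ = (e * (f * g) * e) * g := by simp only [mul_assoc]
    _ = e * g := by rw [h2]

theorem law_zero (e z w f : M) (he : e * e = e) (hf : f * f = f) :
    e * z * w * f = e * z * e * w * f := by
  have : Nonempty M := ⟨e⟩
  have hc : Cov t M := h.cov
  let g := npw (e * z) (t.factorial - 1)
  let g' := npw (w * f) (t.factorial - 1)
  have hg : g * g = g := hc.idem _
  have hg' : g' * g' = g' := hc.idem _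
  have eg : e * g = g := mul_npw_absorb e z he _
  have gf : g' * f = g' := npw_mul_absorb f w hf _
  have ge : g * e = e := by rw [← eg]; exact efe ht h e g he hg
  have fg : f * g' = f := by rw [← gf, ← mul_assoc]; exact efe ht h f g' hf hg'
  have h1 : e * z * g = e * z := by
    have h2 : g * (e * z) = (e * z) * g := npw_comm _ _
    rw [← h2, ← mul_assoc, ge]
  have h2 : g' * (w * f) = w * f := by
    have h3 : g' * (w * f) = (w * f) * g' := npw_comm _ _
    rw [h3, mul_assoc, fg]
  have h3 := efg_law ht h e g g' he hg hg'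
  calc e * z * w * f = (e * z) * (w * f) := by rw [mul_assoc]
    _ = (e * z * g) * (g' * (w * f)) := by rw [h1, h2]
    _ = (e * z) * (e * g * g') * (w * f) := by rw [eg]; simp only [mul_assoc]
    _ = (e * z) * e * (g' * (w * f)) := by rw [h3]; simp only [mul_assoc]
    _ = e * z * e * w * f := by rw [h2]; simp only [mul_assoc]

theorem loc_comm (e x y : M) (he : e * e = e) :
    (e * x * e) * (e * y * e) = (e * y * e) * (e * x * e) := by
  obtain ⟨A, C, v, hvi, hval, hone, hmk0⟩ := exists_group_package ht h e he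
  obtain ⟨a, ha⟩ := hmk0 x
  obtain ⟨b, hb⟩ := hmk0 y
  rw [← ha, ← hb, ← hval, ← hval, mul_comm]

theorem law_one (x y : ℕ → M) (a b : M) :
    pre x t * a * b * pre y t = pre x t * b * a * pre y t := by
  have : Nonempty M := ⟨a⟩
  have hc : Cov t M := h.cov
  obtain ⟨al, e, be, he, h1⟩ := hc.long x
  obtain ⟨ga, f, de, hf, h2⟩ := hc.long y
  rw [h1, h2]
  have key : ∀ a b : M, e * be * a * b * ga * f = e * be * (e * a * e) * (e * b * e) * ga * f := by
    intro a b
    have s1 := law_zero ht h e be (a * b * ga) f he hf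
    have s2 := law_zero ht h e a (b * ga) f he hf
    have s3 := law_zero ht h e b ga f he hf
    calc e * be * a * b * ga * f = e * be * (a * b * ga) * f := by simp only [mul_assoc]
      _ = e * be * e * (a * b * ga) * f := s1
      _ = e * be * (e * a * (b * ga) * f) := by simp only [mul_assoc]
      _ = e * be * (e * a * e * (b * ga) * f) := by rw [s2]
      _ = e * be * (e * a * (e * b * ga * f)) := by simp only [mul_assoc]
      _ = e * be * (e * a * (e * b * e * ga * f)) := by rw [s3]
      _ = e * be * (e * a * (e * e * b * e * ga * f)) := by rw [he]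
      _ = e * be * (e * a * e) * (e * b * e) * ga * f := by simp only [mul_assoc]
  have h3 : e * be * a * b * ga * f = e * be * b * a * ga * f := by
    rw [key a b, key b a, mul_assoc (e * be), loc_comm ht h e a b he, ← mul_assoc (e * be)]
  calc al * e * be * a * b * (ga * f * de) = al * (e * be * a * b * ga * f) * de := by
        simp only [mul_assoc]
    _ = al * e * be * b * a * (ga * f * de) := by rw [h3]; simp only [mul_assoc]

theorem law_two (x y : ℕ → M) (a : M) :
    pre x t * npw a (t.factorial - 1) * pre y t = pre x t * pre y t := by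
  have : Nonempty M := ⟨a⟩
  have hc : Cov t M := h.cov
  obtain ⟨al, e, be, he, h1⟩ := hc.long x
  obtain ⟨ga, f, de, hf, h2⟩ := hc.long y
  rw [h1, h2]
  have hg : npw a (t.factorial - 1) * npw a (t.factorial - 1) = npw a (t.factorial - 1) := hc.idem _
  generalize npw a (t.factorial - 1) = g at hg
  have s1 := law_zero ht h e be (g * ga) f he hf
  have s2 := law_zero ht h e g ga f he hf
  have s3 := law_zero ht h e be ga f he hf
  have s4 := efe ht h e g he hg
  have h3 : e * be * g * ga * f = e * be * ga * f := by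
    calc e * be * g * ga * f = e * be * (g * ga) * f := by simp only [mul_assoc]
      _ = e * be * e * (g * ga) * f := s1
      _ = e * be * (e * g * ga * f) := by simp only [mul_assoc]
      _ = e * be * (e * g * e * ga * f) := by rw [s2]
      _ = e * be * e * ga * f := by rw [s4]; simp only [mul_assoc]
      _ = e * be * ga * f := s3.symm
  calc al * e * be * g * (ga * f * de) = al * (e * be * g * ga * f) * de := by
        simp only [mul_assoc]
    _ = al * e * be * (ga * f * de) := by rw [h3]; simp only [mul_assoc]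

end laws

/-- product of a list in `M` with an identity adjoined -/
def lp {M : Type} [Semigroup M] (l : List M) : WithOne M :=
  (l.map (fun x : M => (x : WithOne M))).prod

theorem lp_nil {M : Type} [Semigroup M] : lp ([] : List M) = 1 := rfl

theorem lp_cons {M : Type} [Semigroup M] (x : M) (l : List M) : lp (x :: l) = x * lp l := by
  simp [lp]

theorem lp_append {M : Type} [Semigroup M] (l l' : List M) : lp (l ++ l') = lp l * lp l' := by
  simp [lp]

theorem coe_npw {M : Type} [Semigroup M] (x : M) (k : ℕ) :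
    ((npw x k : M) : WithOne M) = (x : WithOne M) ^ (k + 1) := by
  induction k with
  | zero => simp [npw]
  | succ k ih =>
    show ((npw x k * x : M) : WithOne M) = _
    rw [WithOne.coe_mul, ih, ← pow_succ]

theorem pre_congr {M : Type} [Semigroup M] (x y : ℕ → M) (k : ℕ) (h : ∀ i ≤ k, x i = y i) :
    pre x k = pre y k := by
  induction k with
  | zero => exact h 0 le_rfl
  | succ k ih =>
    show pre x k * x (k + 1) = pre y k * y (k + 1)
    rw [ih fun i hi => h i (by omega), h (k + 1) le_rfl]

theorem lp_eq_pre {M : Type} [Semigroup M] (k : ℕ) : ∀ l : List M, l.length = k + 1 →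
    ∃ x : ℕ → M, lp l = ((pre x k : M) : WithOne M) := by
  induction k with
  | zero =>
    intro l hl
    obtain ⟨a, rfl⟩ := List.length_eq_one_iff.1 hl
    exact ⟨fun _ => a, by simp [lp, pre]⟩
  | succ k ih =>
    intro l hl
    have hne : l ≠ [] := by intro h; rw [h] at hl; simp at hl
    obtain ⟨l', a, rfl⟩ : ∃ l' a, l = l' ++ [a] := ⟨l.dropLast, l.getLast hne,
      (List.dropLast_append_getLast hne).symm⟩
    rw [List.length_append, List.length_singleton] at hl
    obtain ⟨x, hx⟩ := ih l' (by omega)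
    refine ⟨fun i => if i ≤ k then x i else a, ?_⟩
    have h1 : pre (fun i => if i ≤ k then x i else a) k = pre x k :=
      pre_congr _ _ _ fun i hi => by simp [hi]
    have h2 : pre (fun i => if i ≤ k then x i else a) (k + 1) = pre x k * a := by
      show pre (fun i => if i ≤ k then x i else a) k * (if k + 1 ≤ k then x (k + 1) else a) = _
      rw [h1, if_neg (by omega)]
    rw [h2, lp_append, hx, WithOne.coe_mul]
    simp [lp]

/-- the two laws, for words of length `c` at the ends -/
def Wl (c n : ℕ) (M : Type) [Semigroup M] : Prop :=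
  (∀ P S : List M, P.length = c → S.length = c → ∀ x y : M,
    lp P * x * y * lp S = lp P * y * x * lp S) ∧
  (∀ P S : List M, P.length = c → S.length = c → ∀ x : M,
    lp P * (x : WithOne M) ^ n * lp S = lp P * lp S)

theorem wl_of_good {M : Type} [Semigroup M] [Finite M] {t : ℕ} (ht : 1 ≤ t) (h : Good t M) :
    Wl (t + 1) t.factorial M := by
  constructor
  · intro P S hP hS x y
    obtain ⟨u, hu⟩ := lp_eq_pre t P hP
    obtain ⟨v, hv⟩ := lp_eq_pre t S hS
    rw [hu, hv]
    simp only [← WithOne.coe_mul]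
    rw [law_one ht h]
  · intro P S hP hS x
    obtain ⟨u, hu⟩ := lp_eq_pre t P hP
    obtain ⟨v, hv⟩ := lp_eq_pre t S hS
    have e1 : t.factorial = (t.factorial - 1) + 1 := by have := Nat.factorial_pos t; omega
    rw [hu, hv, e1, ← coe_npw]
    simp only [← WithOne.coe_mul]
    rw [law_two ht h]

/-- value of a word -/
def ev {M : Type} [Semigroup M] {α : Type} (σ : α → M) (w : List α) : WithOne M :=
  (w.map (fun a : α => (σ a : WithOne M))).prod

theorem ev_eq_lp {M : Type} [Semigroup M] {α : Type} (σ : α → M) (w : List α) :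
    ev σ w = lp (w.map σ) := by
  unfold ev lp
  rw [List.map_map]
  rfl

theorem withOne_cases {M : Type} (x : WithOne M) : x = 1 ∨ ∃ y : M, x = y :=
  WithOne.cases_on x (Or.inl rfl) (fun a => Or.inr ⟨a, rfl⟩)

theorem ev_nil {M : Type} [Semigroup M] {α : Type} (σ : α → M) : ev σ ([] : List α) = 1 := rfl

theorem ev_cons {M : Type} [Semigroup M] {α : Type} (σ : α → M) (x : α) (l : List α) :
    ev σ (x :: l) = σ x * ev σ l := by simp [ev]

theorem ev_append {M : Type} [Semigroup M] {α : Type} (σ : α → M) (l l' : List α) :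
    ev σ (l ++ l') = ev σ l * ev σ l' := by simp [ev]

theorem ev_replicate {M : Type} [Semigroup M] {α : Type} (σ : α → M) (k : ℕ) (x : α) :
    ev σ (List.replicate k x) = (σ x : WithOne M) ^ k := by simp [ev]

theorem ev_map {M : Type} [Semigroup M] {α β : Type} (σ : β → M) (ρ : α → β) (w : List α) :
    ev σ (w.map ρ) = ev (fun a => σ (ρ a)) w := by
  simp [ev, List.map_map, Function.comp_def]

/-- the identity `u = v` holds in `M` -/
def Sat (M : Type) [Semigroup M] {α : Type} (u v : List α) : Prop :=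
  ∀ σ : α → M, ev σ u = ev σ v

theorem Sat.map {M : Type} [Semigroup M] {α β : Type} {u v : List α} (h : Sat M u v) (ρ : α → β) :
    Sat M (u.map ρ) (v.map ρ) := fun σ => by rw [ev_map, ev_map]; exact h _

def Lg {M : Type} [Semigroup M] (c : ℕ) (a : WithOne M) : Prop :=
  ∃ l : List M, c ≤ l.length ∧ lp l = a

section W

variable {M : Type} [Semigroup M] {c n : ℕ}

theorem Lg.mul_right {a : WithOne M} (h : Lg c a) (x : WithOne M) : Lg c (a * x) := by
  obtain ⟨l, hl, rfl⟩ := h
  obtain rfl | ⟨x, rfl⟩ := withOne_cases x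
  · exact ⟨l, hl, by rw [mul_one]⟩
  · exact ⟨l ++ [x], by simp; omega, by rw [lp_append]; simp [lp]⟩

theorem Lg.mul_left {a : WithOne M} (h : Lg c a) (x : WithOne M) : Lg c (x * a) := by
  obtain ⟨l, hl, rfl⟩ := h
  obtain rfl | ⟨x, rfl⟩ := withOne_cases x
  · exact ⟨l, hl, by rw [one_mul]⟩
  · exact ⟨x :: l, by simp; omega, by rw [lp_cons]⟩

theorem lg_ev {α : Type} (σ : α → M) (w : List α) (h : c ≤ w.length) : Lg c (ev σ w) :=
  ⟨w.map σ, by simpa using h, (ev_eq_lp σ w).symm⟩

theorem V1 (hW : Wl c n M) {a b : WithOne M} (ha : Lg c a) (hb : Lg c b) (x y : WithOne M) :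
    a * x * y * b = a * y * x * b := by
  obtain rfl | ⟨x, rfl⟩ := withOne_cases x
  · simp
  · obtain rfl | ⟨y, rfl⟩ := withOne_cases y
    · simp
    · obtain ⟨l, hl, rfl⟩ := ha
      obtain ⟨l', hl', rfl⟩ := hb
      have e1 : lp l = lp (l.take (l.length - c)) * lp (l.drop (l.length - c)) := by
        rw [← lp_append, List.take_append_drop]
      have e2 : lp l' = lp (l'.take c) * lp (l'.drop c) := by
        rw [← lp_append, List.take_append_drop]
      have h1 := hW.1 (l.drop (l.length - c)) (l'.take c) (by simp; omega) (by simp; omega) x y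
      rw [e1, e2]
      calc lp (l.take (l.length - c)) * lp (l.drop (l.length - c)) * ↑x * ↑y *
            (lp (l'.take c) * lp (l'.drop c)) = lp (l.take (l.length - c)) *
            (lp (l.drop (l.length - c)) * ↑x * ↑y * lp (l'.take c)) * lp (l'.drop c) := by
              simp only [mul_assoc]
        _ = _ := by rw [h1]; simp only [mul_assoc]

theorem V2 (hW : Wl c n M) {a b : WithOne M} (ha : Lg c a) (hb : Lg c b) (x : WithOne M) :
    a * x ^ n * b = a * b := by
  obtain rfl | ⟨x, rfl⟩ := withOne_cases x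
  · simp
  · obtain ⟨l, hl, rfl⟩ := ha
    obtain ⟨l', hl', rfl⟩ := hb
    have e1 : lp l = lp (l.take (l.length - c)) * lp (l.drop (l.length - c)) := by
      rw [← lp_append, List.take_append_drop]
    have e2 : lp l' = lp (l'.take c) * lp (l'.drop c) := by
      rw [← lp_append, List.take_append_drop]
    have h1 := hW.2 (l.drop (l.length - c)) (l'.take c) (by simp; omega) (by simp; omega) x
    rw [e1, e2]
    calc lp (l.take (l.length - c)) * lp (l.drop (l.length - c)) * (x : WithOne M) ^ n *
          (lp (l'.take c) * lp (l'.drop c)) = lp (l.take (l.length - c)) *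
          (lp (l.drop (l.length - c)) * (x : WithOne M) ^ n * lp (l'.take c)) * lp (l'.drop c) := by
            simp only [mul_assoc]
      _ = _ := by rw [h1]; simp only [mul_assoc]

theorem pow_mul_aux {N : Type} [Monoid N] (a b : N) (m : ℕ) :
    (a * b) ^ m * a = a * (b * a) ^ m := by
  induction m with
  | zero => simp
  | succ m ih =>
    rw [pow_succ', pow_succ', mul_assoc (a * b), ih]
    simp only [mul_assoc]

theorem reinsert_aux (hW : Wl c n M) (hn : 1 ≤ n) {a b : WithOne M} (ha : Lg c a) (hb : Lg c b)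
    (y : WithOne M) : (a * b) ^ n * y * (a * b) = a * y * b := by
  obtain ⟨m, rfl⟩ : ∃ m, n = m + 1 := ⟨n - 1, by omega⟩
  calc (a * b) ^ (m + 1) * y * (a * b) = ((a * b) ^ m * a) * b * y * (a * b) := by
        rw [pow_succ]; simp only [mul_assoc]
    _ = a * ((b * a) ^ m * b) * y * (a * b) := by rw [pow_mul_aux]; simp only [mul_assoc]
    _ = a * y * ((b * a) ^ m * b) * (a * b) := V1 hW ha (hb.mul_left a) _ _
    _ = (a * y) * (b * a) ^ (m + 1) * b := by rw [pow_succ]; simp only [mul_assoc]
    _ = a * y * b := V2 hW (ha.mul_right y) hb _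

theorem reinsert (hW : Wl c n M) (hn : 1 ≤ n) {a b a' b' : WithOne M} (ha : Lg c a) (hb : Lg c b)
    (ha' : Lg c a') (hb' : Lg c b') (h : a * b = a' * b') (y : WithOne M) :
    a * y * b = a' * y * b' := by
  rw [← reinsert_aux hW hn ha hb, h, reinsert_aux hW hn ha' hb']

theorem ev_perm {α : Type} (hW : Wl c n M) (σ : α → M) {m m' : List α} (hm : m.Perm m') :
    ∀ {a b : WithOne M}, Lg c a → Lg c b → a * ev σ m * b = a * ev σ m' * b := by
  induction hm with
  | nil => intros; rfl
  | cons x _ ih =>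
    intro a b ha hb
    rw [ev_cons, ev_cons, ← mul_assoc, ← mul_assoc]
    exact ih (ha.mul_right _) hb
  | swap x y l =>
    intro a b ha hb
    rw [ev_cons, ev_cons, ev_cons, ev_cons]
    have := V1 hW ha (hb.mul_left (ev σ l)) (σ x : WithOne M) (σ y : WithOne M)
    calc a * (↑(σ y) * (↑(σ x) * ev σ l)) * b = a * ↑(σ y) * ↑(σ x) * (ev σ l * b) := by
          simp only [mul_assoc]
      _ = a * ↑(σ x) * ↑(σ y) * (ev σ l * b) := this.symm
      _ = a * (↑(σ x) * (↑(σ y) * ev σ l)) * b := by simp only [mul_assoc]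
  | trans _ _ ih1 ih2 =>
    intro a b ha hb
    rw [ih1 ha hb, ih2 ha hb]

theorem ev_restrict (hW : Wl c n M) (hn : 1 ≤ n) (σ : ℕ → M) (Z : Finset ℕ) (m : List ℕ) :
    ∀ {a b : WithOne M}, Lg c a → Lg c b →
      a * ev (fun i => if i ∈ Z then σ i else npw (σ i) (n - 1)) m * b =
        a * ev σ (m.filter (· ∈ Z)) * b := by
  induction m with
  | nil => intros; rfl
  | cons x m ih =>
    intro a b ha hb
    rw [ev_cons, List.filter_cons]
    by_cases hx : x ∈ Z
    · simp only [hx, if_true, decide_true]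
      rw [ev_cons, ← mul_assoc, ← mul_assoc]
      exact ih (ha.mul_right _) hb
    · simp only [hx, if_false, decide_false]
      rw [coe_npw, Nat.sub_add_cancel hn]
      rw [if_neg (by simp), ← ih ha hb, ← mul_assoc, mul_assoc (a * _), V2 hW ha (hb.mul_left _),
        mul_assoc]

end W

theorem ev_congr {M : Type} [Semigroup M] {α : Type} {σ τ : α → M} {w : List α}
    (h : ∀ i ∈ w, σ i = τ i) : ev σ w = ev τ w := by
  unfold ev
  congr 1
  exact List.map_congr_left fun i hi => by rw [h i hi]

/-- restriction of identities -/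
theorem sat_restrict {M : Type} [Semigroup M] {c n : ℕ} (hW : Wl c n M) (hn : 1 ≤ n)
    {p m s p' m' s' : List ℕ} (hp : p.length = c) (hs : s.length = c) (hp' : p'.length = c)
    (hs' : s'.length = c) (h : Sat M (p ++ m ++ s) (p' ++ m' ++ s')) (Z : Finset ℕ)
    (hZ : ∀ i, (i ∈ p ∨ i ∈ s ∨ i ∈ p' ∨ i ∈ s') → i ∈ Z) :
    Sat M (p ++ m.filter (· ∈ Z) ++ s) (p' ++ m'.filter (· ∈ Z) ++ s') := by
  intro σ
  have h1 := h (fun i => if i ∈ Z then σ i else npw (σ i) (n - 1))
  have key : ∀ p m s : List ℕ, p.length = c → s.length = c → (∀ i ∈ p, i ∈ Z) → (∀ i ∈ s, i ∈ Z) →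
      ev (fun i => if i ∈ Z then σ i else npw (σ i) (n - 1)) (p ++ m ++ s) =
        ev σ (p ++ m.filter (· ∈ Z) ++ s) := by
    intro p m s hp hs h1 h2
    rw [ev_append, ev_append, ev_append, ev_append]
    have e1 : ev (fun i => if i ∈ Z then σ i else npw (σ i) (n - 1)) p = ev σ p :=
      ev_congr fun i hi => by simp [h1 i hi]
    have e2 : ev (fun i => if i ∈ Z then σ i else npw (σ i) (n - 1)) s = ev σ s :=
      ev_congr fun i hi => by simp [h2 i hi]
    rw [e1, e2]
    exact ev_restrict hW hn σ Z m (lg_ev σ p hp.ge) (lg_ev σ s hs.ge)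
  rw [key p m s hp hs (fun i hi => hZ i (by tauto)) (fun i hi => hZ i (by tauto)),
    key p' m' s' hp' hs' (fun i hi => hZ i (by tauto)) (fun i hi => hZ i (by tauto))] at h1
  exact h1

theorem Sat.symm {M : Type} [Semigroup M] {α : Type} {u v : List α} (h : Sat M u v) :
    Sat M v u := fun σ => (h σ).symm

theorem Sat.trans {M : Type} [Semigroup M] {α : Type} {u v w : List α} (h : Sat M u v)
    (h' : Sat M v w) : Sat M u w := fun σ => (h σ).trans (h' σ)

theorem filter_insert_perm (m : List ℕ) (Y : Finset ℕ) (z : ℕ) (hz : z ∉ Y) :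
    (m.filter (· ∈ insert z Y)).Perm (m.filter (· ∈ Y) ++ List.replicate (m.count z) z) := by
  rw [List.perm_iff_count]
  intro a
  rw [List.count_append, List.count_replicate]
  by_cases ha : a ∈ Y
  · have hne : a ≠ z := fun h => hz (h ▸ ha)
    rw [List.count_filter (by simp [ha]), List.count_filter (by simpa using ha)]
    simp [hne.symm]
  · by_cases haz : a = z
    · subst haz
      rw [List.count_filter (by simp)]
      have : (m.filter (· ∈ Y)).count a = 0 := by
        rw [List.count_eq_zero]
        simp [ha]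
      rw [this]; simp
    · have h1 : (m.filter (· ∈ Y)).count a = 0 := by
        rw [List.count_eq_zero]
        simp [ha]
      have h2 : (m.filter (· ∈ insert z Y)).count a = 0 := by
        rw [List.count_eq_zero]
        simp [ha, haz]
      rw [h1, h2]
      simp [Ne.symm haz]

theorem filter_union_perm (m : List ℕ) (X Z : Finset ℕ) (h : Disjoint X Z) :
    (m.filter (· ∈ X ∪ Z)).Perm (m.filter (· ∈ X) ++ m.filter (· ∈ Z)) := by
  rw [List.perm_iff_count]
  intro a
  rw [List.count_append]
  have key : ∀ Y : Finset ℕ, (m.filter (· ∈ Y)).count a = if a ∈ Y then m.count a else 0 := by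
    intro Y
    by_cases ha : a ∈ Y
    · rw [List.count_filter (by simpa using ha)]; simp [ha]
    · rw [List.count_eq_zero.2 (by simp [ha])]; simp [ha]
  rw [key, key, key]
  by_cases hX : a ∈ X
  · have hZ : a ∉ Z := Finset.disjoint_left.1 h hX
    simp [hX, hZ]
  · simp [hX]

theorem sat_long {M0 M : Type} [Semigroup M0] [Semigroup M] {c n : ℕ} (hW0 : Wl c n M0)
    (hW : Wl c n M) (hn : 1 ≤ n)
    (hyp : ∀ u v : List ℕ, (u.toFinset ∪ v.toFinset).card ≤ 4 * c + 1 → Sat M0 u v → Sat M u v)
    {p m s p' m' s' : List ℕ} (hp : p.length = c) (hs : s.length = c) (hp' : p'.length = c)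
    (hs' : s'.length = c) (h : Sat M0 (p ++ m ++ s) (p' ++ m' ++ s')) :
    Sat M (p ++ m ++ s) (p' ++ m' ++ s') := by
  classical
  let X : Finset ℕ := p.toFinset ∪ s.toFinset ∪ (p'.toFinset ∪ s'.toFinset)
  have hXm : ∀ i, (i ∈ p ∨ i ∈ s ∨ i ∈ p' ∨ i ∈ s') → i ∈ X := by
    intro i hi
    simp only [X, Finset.mem_union, List.mem_toFinset]
    tauto
  have hXc : X.card ≤ 4 * c := by
    have h1 := Finset.card_union_le (p.toFinset ∪ s.toFinset) (p'.toFinset ∪ s'.toFinset)
    have h2 := Finset.card_union_le p.toFinset s.toFinset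
    have h3 := Finset.card_union_le p'.toFinset s'.toFinset
    have h4 := List.toFinset_card_le p
    have h5 := List.toFinset_card_le p'
    have h6 := List.toFinset_card_le s
    have h7 := List.toFinset_card_le s'
    show (p.toFinset ∪ s.toFinset ∪ (p'.toFinset ∪ s'.toFinset)).card ≤ 4 * c
    omega
  have hsmall : ∀ Z : Finset ℕ, X ⊆ Z → Z.card ≤ 4 * c + 1 →
      Sat M (p ++ m.filter (· ∈ Z) ++ s) (p' ++ m'.filter (· ∈ Z) ++ s') := by
    intro Z hXZ hZc
    apply hyp
    · refine le_trans (Finset.card_le_card ?_) hZc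
      intro i hi
      simp only [Finset.mem_union, List.mem_toFinset, List.mem_append, List.mem_filter,
        decide_eq_true_eq] at hi
      rcases hi with ((hi | hi) | hi) | ((hi | hi) | hi)
      · exact hXZ (hXm i (by tauto))
      · exact hi.2
      · exact hXZ (hXm i (by tauto))
      · exact hXZ (hXm i (by tauto))
      · exact hi.2
      · exact hXZ (hXm i (by tauto))
    · exact sat_restrict hW0 hn hp hs hp' hs' h Z (fun i hi => hXZ (hXm i hi))
  have hX := hsmall X (Finset.Subset.refl _) (by omega)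
  have main : ∀ Z : Finset ℕ, Disjoint X Z →
      Sat M (p ++ m.filter (· ∈ X ∪ Z) ++ s) (p' ++ m'.filter (· ∈ X ∪ Z) ++ s') := by
    intro Z
    induction Z using Finset.induction_on with
    | empty => intro _; simpa using hX
    | insert z Z hz ih =>
      intro hdis
      have hzX : z ∉ X := fun h => (Finset.disjoint_left.1 hdis h) (Finset.mem_insert_self _ _)
      have hdis' : Disjoint X Z := hdis.mono_right (Finset.subset_insert _ _)
      have IH := ih hdis'
      have Hz := hsmall (insert z X) (Finset.subset_insert _ _)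
        (by have := Finset.card_insert_le z X; omega)
      have hzY : z ∉ X ∪ Z := by simp [hzX, hz]
      intro σ
      have Lp : Lg c (ev σ p) := lg_ev σ p hp.ge
      have Ls : Lg c (ev σ s) := lg_ev σ s hs.ge
      have Lp' : Lg c (ev σ p') := lg_ev σ p' hp'.ge
      have Ls' : Lg c (ev σ s') := lg_ev σ s' hs'.ge
      have hX' := hX σ
      have Hz' := Hz σ
      have IH' := IH σ
      have e0 : X ∪ insert z Z = insert z (X ∪ Z) := by
        ext a; simp only [Finset.mem_union, Finset.mem_insert]; tauto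
      rw [e0]
      simp only [ev_append] at hX' Hz' IH' ⊢
      -- permute
      have q1 := ev_perm hW σ (filter_insert_perm m (X ∪ Z) z hzY) Lp Ls
      have q2 := ev_perm hW σ (filter_insert_perm m' (X ∪ Z) z hzY) Lp' Ls'
      have q3 := ev_perm hW σ (filter_insert_perm m X z hzX) Lp Ls
      have q4 := ev_perm hW σ (filter_insert_perm m' X z hzX) Lp' Ls'
      rw [q1, q2]
      rw [q3, q4] at Hz'
      simp only [ev_append, ev_replicate, ← mul_assoc] at Hz' ⊢
      -- first replacement
      have r1 := reinsert hW hn (Lp.mul_right (ev σ (m.filter (· ∈ X ∪ Z)))) Ls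
        (Lp'.mul_right (ev σ (m'.filter (· ∈ X ∪ Z)))) Ls' IH' ((σ z : WithOne M) ^ m.count z)
      rw [r1]
      -- second
      have r2 := reinsert hW hn (Lp.mul_right (ev σ (m.filter (· ∈ X)))) Ls
        (Lp'.mul_right (ev σ (m'.filter (· ∈ X)))) Ls' hX' ((σ z : WithOne M) ^ m.count z)
      rw [r2] at Hz'
      have r3 := reinsert hW hn
        ((Lp'.mul_right (ev σ (m'.filter (· ∈ X)))).mul_right ((σ z : WithOne M) ^ m.count z)) Ls'
        ((Lp'.mul_right (ev σ (m'.filter (· ∈ X)))).mul_right ((σ z : WithOne M) ^ m'.count z)) Ls'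
        Hz' (ev σ (m'.filter (· ∈ Z)))
      rw [V1 hW (Lp'.mul_right _) Ls' ((σ z : WithOne M) ^ m.count z) (ev σ (m'.filter (· ∈ Z))),
        V1 hW (Lp'.mul_right _) Ls' ((σ z : WithOne M) ^ m'.count z)
          (ev σ (m'.filter (· ∈ Z)))] at r3
      -- use the permutation X ∪ Z
      have q5 : ∀ y : WithOne M, ev σ p' * ev σ (m'.filter (· ∈ X ∪ Z)) * y * ev σ s' =
          ev σ p' * ev σ (m'.filter (· ∈ X)) * ev σ (m'.filter (· ∈ Z)) * y * ev σ s' := by
        intro y
        have := ev_perm hW σ (filter_union_perm m' X Z hdis') Lp' (Ls'.mul_left y)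
        rw [ev_append] at this
        simp only [mul_assoc] at this ⊢
        exact this
      rw [q5, q5]
      exact r3
  have hfin := main ((m.toFinset ∪ m'.toFinset) \ X) Finset.disjoint_sdiff
  have f1 : m.filter (· ∈ X ∪ ((m.toFinset ∪ m'.toFinset) \ X)) = m := by
    rw [List.filter_eq_self]
    intro a ha
    simp [ha]
  have f2 : m'.filter (· ∈ X ∪ ((m.toFinset ∪ m'.toFinset) \ X)) = m' := by
    rw [List.filter_eq_self]
    intro a ha
    simp [ha]
  rw [f1, f2] at hfin
  exact hfin

theorem split_long {c : ℕ} (u : List ℕ) (hu : 2 * c ≤ u.length) :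
    ∃ p m s : List ℕ, p.length = c ∧ s.length = c ∧ u = p ++ m ++ s := by
  refine ⟨u.take c, (u.drop c).take (u.length - 2 * c), u.drop (u.length - c), ?_, ?_, ?_⟩
  · simp; omega
  · simp; omega
  · have h1 : u.drop (u.length - c) = (u.drop c).drop (u.length - 2 * c) := by
      rw [List.drop_drop]; congr 1; omega
    rw [h1, List.append_assoc, List.take_append_drop, List.take_append_drop]

theorem ev_flatten_replicate {M : Type} [Semigroup M] (σ : ℕ → M) (v : List ℕ) (q : ℕ) :
    ev σ (List.replicate q v).flatten = ev σ v ^ q := by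
  induction q with
  | zero => simp [ev]
  | succ q ih => rw [List.replicate_succ, List.flatten_cons, ev_append, ih, pow_succ']

theorem sat_long_short {M0 M : Type} [Semigroup M0] [Semigroup M] {c n : ℕ} (hW0 : Wl c n M0)
    (hW : Wl c n M) (hn : 1 ≤ n)
    (hyp : ∀ u v : List ℕ, (u.toFinset ∪ v.toFinset).card ≤ 4 * c + 1 → Sat M0 u v → Sat M u v)
    {u v : List ℕ} (hv0 : v ≠ []) (hu : 2 * c ≤ u.length) (hv : v.length < 2 * c)
    (h : Sat M0 u v) : Sat M u v := by
  classical
  obtain ⟨p, m, s, hp, hs, rfl⟩ := split_long u hu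
  let q := 2 * c * n + 1
  let v' := (List.replicate q v).flatten
  have hpow : ∀ (k : ℕ) (g : WithOne M0), g ^ n * g = g → g ^ (k * n + 1) = g := by
    intro k g hg
    induction k with
    | zero => simp
    | succ k ih =>
      have e1 : (k + 1) * n + 1 = n + (k * n + 1) := by ring
      rw [e1, pow_add, ih, hg]
  have h1 : Sat M0 v v' := by
    intro σ
    rw [ev_flatten_replicate, ← h σ]
    symm
    apply hpow
    have := reinsert_aux hW0 hn (lg_ev σ p hp.ge) (lg_ev σ (m ++ s) (by simp; omega)) 1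
    rw [mul_one, mul_one] at this
    rw [List.append_assoc, ev_append]
    exact this
  have hv'len : 2 * c ≤ v'.length := by
    have hpos : 1 ≤ v.length := List.length_pos_iff.2 hv0
    have : v'.length = q * v.length := by simp [v']
    rw [this]
    have h2 : 2 * c ≤ q := by
      show 2 * c ≤ 2 * c * n + 1
      nlinarith
    nlinarith
  have hv'sub : v'.toFinset ⊆ v.toFinset := by
    intro i hi
    rw [List.mem_toFinset] at hi ⊢
    obtain ⟨l, hl, hil⟩ := List.mem_flatten.1 hi
    rw [List.eq_of_mem_replicate hl] at hil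
    exact hil
  have h2 : Sat M v v' := by
    apply hyp _ _ _ h1
    rw [Finset.union_eq_left.2 hv'sub]
    have := List.toFinset_card_le v
    omega
  have h3 : Sat M0 (p ++ m ++ s) v' := h.trans h1
  obtain ⟨p', m', s', hp', hs', he⟩ := split_long v' hv'len
  rw [he] at h3 h2
  exact (sat_long hW0 hW hn hyp hp hs hp' hs' h3).trans h2.symm

theorem sat_all_aux {M0 M : Type} [Semigroup M0] [Semigroup M] {c n : ℕ} (hW0 : Wl c n M0)
    (hW : Wl c n M) (hn : 1 ≤ n)
    (hyp : ∀ u v : List ℕ, (u.toFinset ∪ v.toFinset).card ≤ 4 * c + 1 → Sat M0 u v → Sat M u v)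
    {u v : List ℕ} (hu0 : u ≠ []) (hv0 : v ≠ []) (h : Sat M0 u v) : Sat M u v := by
  classical
  rcases Nat.lt_or_ge u.length (2 * c) with hu | hu
  · rcases Nat.lt_or_ge v.length (2 * c) with hv | hv
    · apply hyp _ _ _ h
      have h1 := Finset.card_union_le u.toFinset v.toFinset
      have h2 := List.toFinset_card_le u
      have h3 := List.toFinset_card_le v
      omega
    · exact (sat_long_short hW0 hW hn hyp hu0 hv hu h.symm).symm
  · rcases Nat.lt_or_ge v.length (2 * c) with hv | hv
    · exact sat_long_short hW0 hW hn hyp hv0 hu hv h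
    · obtain ⟨p, m, s, hp, hs, rfl⟩ := split_long u hu
      obtain ⟨p', m', s', hp', hs', rfl⟩ := split_long v hv
      exact sat_long hW0 hW hn hyp hp hs hp' hs' h

/-- every word is equivalent to a short one in the same letters -/
theorem shorten {c n : ℕ} (hn : 1 ≤ n) (F : Finset ℕ) : ∀ (N : ℕ) (w : List ℕ), w.length = N →
    w ≠ [] → (∀ i ∈ w, i ∈ F) → ∃ w' : List ℕ, w' ≠ [] ∧ (∀ i ∈ w', i ∈ F) ∧
      w'.length ≤ 2 * c + F.card * n ∧
      ∀ (M : Type) [Semigroup M], Wl c n M → Sat M w w' := by
  classical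
  intro N
  induction N using Nat.strong_induction_on with
  | _ N ih =>
    intro w hw hw0 hF
    by_cases hshort : w.length ≤ 2 * c + F.card * n
    · exact ⟨w, hw0, hF, hshort, fun M _ _ σ => rfl⟩
    push Not at hshort
    obtain ⟨p, m, s, hp, hs, rfl⟩ := split_long (c := c) w (by omega)
    have hm : F.card * n < m.length := by simp at hshort; omega
    have hmF : ∀ a ∈ (m : Multiset ℕ), a ∈ F := fun a ha => hF a (by
      have : a ∈ m := ha
      simp [this])
    have hsum : ∑ a ∈ F, (m : Multiset ℕ).count a = m.length := by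
      rw [Multiset.sum_count_eq_card hmF]; rfl
    obtain ⟨z, hzF, hz⟩ : ∃ z ∈ F, n ≤ m.count z := by
      by_contra hcon
      push Not at hcon
      have h1 : ∑ a ∈ F, (m : Multiset ℕ).count a ≤ ∑ _a ∈ F, n :=
        Finset.sum_le_sum fun a ha => by
          have := hcon a ha
          rw [Multiset.coe_count]
          omega
      rw [hsum, Finset.sum_const, smul_eq_mul] at h1
      omega
    obtain ⟨m2, hm2⟩ := (List.replicate_sublist_iff.2 hz).exists_perm_append
    have hlen : m.length = n + m2.length := by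
      have := hm2.length_eq
      simpa using this
    have hFc : 1 ≤ F.card := Finset.card_pos.2 ⟨z, hzF⟩
    have hlt : (p ++ m2 ++ s).length < N := by
      rw [← hw]; simp; omega
    obtain ⟨w', h1, h2, h3, h4⟩ := ih _ hlt (p ++ m2 ++ s) rfl (by
      intro h0
      have := congrArg List.length h0
      simp at this
      have h5 : m2.length = 0 := by rw [this.2.1]; rfl
      nlinarith) (by
      intro i hi
      simp only [List.mem_append] at hi
      rcases hi with (hi | hi) | hi
      · exact hF i (by simp [hi])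
      · exact hF i (by
          have : i ∈ m := (hm2.mem_iff).2 (by simp [hi])
          simp [this])
      · exact hF i (by simp [hi]))
    refine ⟨w', h1, h2, h3, fun M _ hW => ?_⟩
    refine Sat.trans (fun σ => ?_) (h4 M hW)
    simp only [ev_append]
    rw [ev_perm hW σ hm2 (lg_ev σ p hp.ge) (lg_ev σ s hs.ge), ev_append, ev_replicate,
      ← mul_assoc, mul_assoc (ev σ p * _)]
    rw [V2 hW (lg_ev σ p hp.ge) ((lg_ev σ s hs.ge).mul_left _), ← mul_assoc]

/-- two semigroups satisfying the two laws, with the same short identities in few letters,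
satisfy the same identities -/
theorem sat_all {M0 M : Type} [Semigroup M0] [Semigroup M] {c n : ℕ} (hW0 : Wl c n M0)
    (hW : Wl c n M) (hn : 1 ≤ n)
    (hyp : ∀ u v : List ℕ, u ≠ [] → v ≠ [] → (∀ i ∈ u, i < 4 * c + 1) →
      (∀ i ∈ v, i < 4 * c + 1) → u.length ≤ 2 * c + (4 * c + 1) * n →
      v.length ≤ 2 * c + (4 * c + 1) * n → Sat M0 u v → Sat M u v)
    [hM0 : Nonempty M0] {u v : List ℕ} (hu0 : u ≠ []) (hv0 : v ≠ []) (h : Sat M0 u v) :
    Sat M u v := by
  classical
  -- few letters, arbitrary length, letters `< 4 * c + 1`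
  have hyp2 : ∀ u v : List ℕ, u ≠ [] → v ≠ [] → (∀ i ∈ u, i < 4 * c + 1) →
      (∀ i ∈ v, i < 4 * c + 1) → Sat M0 u v → Sat M u v := by
    intro u v hu hv h1 h2 h3
    obtain ⟨u', a1, a2, a3, a4⟩ := shorten (c := c) hn (Finset.range (4 * c + 1)) _ u rfl hu
      (fun i hi => Finset.mem_range.2 (h1 i hi))
    obtain ⟨v', b1, b2, b3, b4⟩ := shorten (c := c) hn (Finset.range (4 * c + 1)) _ v rfl hv
      (fun i hi => Finset.mem_range.2 (h2 i hi))
    rw [Finset.card_range] at a3 b3
    have := hyp u' v' a1 b1 (fun i hi => Finset.mem_range.1 (a2 i hi))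
      (fun i hi => Finset.mem_range.1 (b2 i hi)) a3 b3
      (((a4 M0 hW0).symm.trans h3).trans (b4 M0 hW0))
    exact ((a4 M hW).trans this).trans (b4 M hW).symm
  have hne : ∀ (u v : List ℕ), u ≠ [] → v = [] →  ¬ Sat M0 u v := by
    rintro u v hu rfl hs
    obtain ⟨a⟩ := hM0
    have := hs (fun _ => a)
    rw [ev_nil] at this
    obtain ⟨x, l, rfl⟩ := List.exists_cons_of_ne_nil hu
    rw [ev_cons] at this
    rcases withOne_cases (ev (fun _ => a) l) with h1 | ⟨b, h1⟩
    · rw [h1, mul_one] at this
      exact WithOne.coe_ne_one this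
    · rw [h1, ← WithOne.coe_mul] at this
      exact WithOne.coe_ne_one this
  refine sat_all_aux hW0 hW hn ?_ hu0 hv0 h
  intro u v hcard hs
  by_cases hu : u = []
  · by_cases hv : v = []
    · subst hu hv; exact fun _ => rfl
    · exact absurd hs.symm (hne v u hv hu)
  by_cases hv : v = []
  · exact absurd hs (hne u v hu hv)
  let F := u.toFinset ∪ v.toFinset
  let e := F.equivFin
  let ρ : ℕ → ℕ := fun i => if h : i ∈ F then (e ⟨i, h⟩ : ℕ) else 0
  let τ : ℕ → ℕ := fun k => if h : k < F.card then (e.symm ⟨k, h⟩ : ℕ) else 0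
  have hτρ : ∀ i ∈ F, τ (ρ i) = i := by
    intro i hi
    have h1 : ρ i = (e ⟨i, hi⟩ : ℕ) := by simp [ρ, hi]
    rw [h1]
    have h2 : τ (e ⟨i, hi⟩ : ℕ) = (e.symm ⟨(e ⟨i, hi⟩ : ℕ), (e ⟨i, hi⟩).2⟩ : ℕ) := by
      simp only [τ]
      rw [dif_pos (e ⟨i, hi⟩).2]
    rw [h2]
    simp
  have hρlt : ∀ i, ρ i < 4 * c + 1 := by
    intro i
    by_cases hi : i ∈ F
    · have h1 : ρ i = (e ⟨i, hi⟩ : ℕ) := by simp [ρ, hi]
      rw [h1]
      have := (e ⟨i, hi⟩).2
      have : F.card ≤ 4 * c + 1 := hcard
      omega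
    · have h1 : ρ i = 0 := by simp [ρ, hi]
      omega
  have h1 := hyp2 (u.map ρ) (v.map ρ) (by simpa using hu) (by simpa using hv)
    (by intro i hi; obtain ⟨j, -, rfl⟩ := List.mem_map.1 hi; exact hρlt j)
    (by intro i hi; obtain ⟨j, -, rfl⟩ := List.mem_map.1 hi; exact hρlt j) (hs.map ρ)
  have h2 := h1.map τ
  have h3 : ∀ w : List ℕ, (∀ i ∈ w, i ∈ F) → (w.map ρ).map τ = w := by
    intro w hw
    rw [List.map_map]
    conv_rhs => rw [← List.map_id w]
    exact List.map_congr_left fun i hi => hτρ i (hw i hi)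
  rw [h3 u (fun i hi => by simp [F, hi]), h3 v (fun i hi => by simp [F, hi])] at h2
  exact h2

theorem ev_ne_nil {M : Type} [Semigroup M] {α : Type} (σ : α → M) (w : List α) (hw : w ≠ []) :
    ∃ x : M, ev σ w = x := by
  induction w with
  | nil => exact absurd rfl hw
  | cons a w ih =>
    rw [ev_cons]
    by_cases h : w = []
    · subst h; exact ⟨σ a, by rw [ev_nil, mul_one]⟩
    · obtain ⟨x, hx⟩ := ih h
      exact ⟨σ a * x, by rw [hx, WithOne.coe_mul]⟩

theorem ev_hom {A B : Type} [Semigroup A] [Semigroup B] (f : A →ₙ* B) {α : Type} (σ : α → A)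
    (w : List α) (x : A) (h : ev σ w = x) : ev (fun a => f (σ a)) w = (f x : B) := by
  have key : ∀ w : List α, (w = [] ∧ ev σ w = 1 ∧ ev (fun a => f (σ a)) w = 1) ∨
      ∃ x : A, ev σ w = x ∧ ev (fun a => f (σ a)) w = (f x : B) := by
    intro w
    induction w with
    | nil => left; exact ⟨rfl, rfl, rfl⟩
    | cons a w ih =>
      right
      rw [ev_cons, ev_cons]
      rcases ih with ⟨-, h1, h2⟩ | ⟨x, h1, h2⟩
      · exact ⟨σ a, by rw [h1, mul_one], by rw [h2, mul_one]⟩
      · exact ⟨σ a * x, by rw [h1, WithOne.coe_mul], by rw [h2, map_mul, WithOne.coe_mul]⟩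
  rcases key w with ⟨-, h1, -⟩ | ⟨y, h1, h2⟩
  · rw [h1] at h
    exact absurd h.symm WithOne.coe_ne_one
  · rw [h1] at h
    rw [h2, WithOne.coe_inj.1 h]

theorem sat_surj {A B : Type} [Semigroup A] [Semigroup B] (f : A →ₙ* B)
    (hf : Function.Surjective f) {α : Type} {u v : List α} (hu : u ≠ []) (hv : v ≠ [])
    (h : Sat A u v) : Sat B u v := by
  intro σ
  choose τ hτ using fun a => hf (σ a)
  have e1 : σ = fun a => f (τ a) := by funext a; exact (hτ a).symm
  obtain ⟨x, hx⟩ := ev_ne_nil τ u hu
  obtain ⟨y, hy⟩ := ev_ne_nil τ v hv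
  have h1 := h τ
  rw [hx, hy, WithOne.coe_inj] at h1
  rw [e1, ev_hom f τ u x hx, ev_hom f τ v y hy, h1]

theorem sat_inj {A B : Type} [Semigroup A] [Semigroup B] (f : B →ₙ* A)
    (hf : Function.Injective f) {α : Type} {u v : List α} (hu : u ≠ []) (hv : v ≠ [])
    (h : Sat A u v) : Sat B u v := by
  intro σ
  obtain ⟨x, hx⟩ := ev_ne_nil σ u hu
  obtain ⟨y, hy⟩ := ev_ne_nil σ v hv
  have h1 := h (fun a => f (σ a))
  rw [ev_hom f σ u x hx, ev_hom f σ v y hy, WithOne.coe_inj] at h1
  rw [hx, hy, hf h1]

theorem sat_pi {k : ℕ} {T : Fin (k + 1) → FinSg} {α : Type} {u v : List α} (hu : u ≠ [])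
    (hv : v ≠ []) (h : ∀ i, Sat (T i) u v) : Sat (∀ i, T i) u v := by
  intro σ
  obtain ⟨x, hx⟩ := ev_ne_nil σ u hu
  obtain ⟨y, hy⟩ := ev_ne_nil σ v hv
  rw [hx, hy, WithOne.coe_inj]
  funext i
  let f : (∀ i, T i) →ₙ* T i := ⟨fun z => z i, fun _ _ => rfl⟩
  have h1 := h i (fun a => f (σ a))
  rw [ev_hom f σ u x hx, ev_hom f σ v y hy, WithOne.coe_inj] at h1
  exact h1

theorem sat_of_hsp {M N : FinSg} (hN : N ∈ opH (opS (opP {M}))) {α : Type} {u v : List α}
    (hu : u ≠ []) (hv : v ≠ []) (h : Sat M u v) : Sat N u v := by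
  obtain ⟨A, ⟨B, ⟨k, T, hT, ⟨e⟩⟩, g, hg⟩, f, hf⟩ := hN
  refine sat_surj f hf hu hv (sat_inj g hg hu hv ?_)
  refine sat_inj (e : B →ₙ* prodSg T) e.injective hu hv ?_
  refine sat_pi hu hv fun i => ?_
  have : T i = M := hT i
  rw [this]; exact h

theorem hsp_of_sat {M N : FinSg}
    (h : ∀ u v : List ℕ, u ≠ [] → v ≠ [] → Sat M u v → Sat N u v) :
    N ∈ opH (opS (opP {M})) := by
  classical
  -- identities over the alphabet `N`
  have hN : ∀ u v : List N, u ≠ [] → v ≠ [] → Sat M u v → Sat N u v := by
    intro u v hu hv hs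
    have := Fintype.ofFinite N
    let e := Fintype.equivFin N
    obtain ⟨n0⟩ := N.ne
    let ρ : N → ℕ := fun x => (e x : ℕ)
    let τ : ℕ → N := fun k => if h : k < Fintype.card N then e.symm ⟨k, h⟩ else n0
    have hτρ : ∀ x, τ (ρ x) = x := by
      intro x
      simp only [τ, ρ]
      rw [dif_pos (e x).2]
      simp
    have h1 := (h (u.map ρ) (v.map ρ) (by simpa using hu) (by simpa using hv) (hs.map ρ)).map τ
    have h3 : ∀ w : List N, (w.map ρ).map τ = w := by
      intro w
      rw [List.map_map]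
      conv_rhs => rw [← List.map_id w]
      exact List.map_congr_left fun i _ => hτρ i
    rwa [h3, h3] at h1
  have := Fintype.ofFinite (N → M)
  obtain ⟨k, hk⟩ : ∃ k, Fintype.card (N → M) = k + 1 := by
    have : 0 < Fintype.card (N → M) := Fintype.card_pos
    exact ⟨Fintype.card (N → M) - 1, by omega⟩
  let e : Fin (k + 1) ≃ (N → M) := (finCongr hk.symm).trans (Fintype.equivFin (N → M)).symm
  let F : Subsemigroup (Fin (k + 1) → M) :=
    { carrier := {z | ∃ w : List N, w ≠ [] ∧ ∀ j, ev (e j) w = (z j : WithOne M)}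
      mul_mem' := by
        rintro z z' ⟨w, hw, h1⟩ ⟨w', hw', h2⟩
        refine ⟨w ++ w', by simp [hw], fun j => ?_⟩
        rw [ev_append, h1, h2, Pi.mul_apply, WithOne.coe_mul] }
  have hval : ∀ z : F, ∃ x : N, ∀ w : List N, w ≠ [] → (∀ j, ev (e j) w = (z.1 j : WithOne M)) →
      ev id w = (x : WithOne N) := by
    rintro ⟨z, w0, hw0, h0⟩
    obtain ⟨x, hx⟩ := ev_ne_nil (id : N → N) w0 hw0
    refine ⟨x, fun w hw hwz => ?_⟩
    rw [← hx]
    refine hN w w0 hw hw0 (fun σ => ?_) id
    have h1 := hwz (e.symm σ)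
    have h2 := h0 (e.symm σ)
    rw [Equiv.apply_symm_apply] at h1 h2
    rw [h1, h2]
  choose φ hφ using hval
  have hFne : Nonempty F := by
    obtain ⟨n0⟩ := N.ne
    exact ⟨⟨fun j => e j n0, [n0], by simp, fun j => by simp [ev]⟩⟩
  refine ⟨⟨F, inferInstance, inferInstance, hFne⟩, ⟨prodSg (fun _ : Fin (k + 1) => M),
    ⟨k, fun _ => M, fun _ => rfl, ⟨MulEquiv.refl _⟩⟩, ⟨fun z => z.1, fun _ _ => rfl⟩,
    fun _ _ h => Subtype.ext h⟩, ⟨φ, ?_⟩, ?_⟩
  · rintro ⟨z, w, hw, h1⟩ ⟨z', w', hw', h2⟩
    have a1 := hφ ⟨z, w, hw, h1⟩ w hw h1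
    have a2 := hφ ⟨z', w', hw', h2⟩ w' hw' h2
    have a3 := hφ (⟨z, w, hw, h1⟩ * ⟨z', w', hw', h2⟩) (w ++ w') (by simp [hw]) (fun j => by
      rw [ev_append, h1, h2]; rfl)
    rw [ev_append, a1, a2, ← WithOne.coe_mul, WithOne.coe_inj] at a3
    exact a3.symm
  · intro x
    refine ⟨⟨fun j => e j x, [x], by simp, fun j => by simp [ev]⟩, ?_⟩
    have := hφ ⟨fun j => e j x, [x], by simp, fun j => by simp [ev]⟩ [x] (by simp)
      (fun j => by simp [ev])
    have h2 : ev (id : N → N) [x] = (x : WithOne N) := by simp [ev]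
    rw [h2, WithOne.coe_inj] at this
    exact this.symm

section prim
open Primrec

theorem allMem {α β : Type} [Primcodable α] [Primcodable β] {f : α → List β} {P : α → β → Prop}
    (hf : Primrec f) (hP : PrimrecPred fun p : α × β => P p.1 p.2) :
    PrimrecPred (fun a => ∀ x ∈ f a, P a x) := by
  have hR : PrimrecRel (fun (x : β) (a : α) => P a x) := hP.comp (snd.pair fst)
  exact (PrimrecRel.forall_mem_list hR).comp hf Primrec.id

theorem allLt {α : Type} [Primcodable α] {f : α → ℕ} {P : α → ℕ → Prop} (hf : Primrec f)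
    (hP : PrimrecPred fun p : α × ℕ => P p.1 p.2) : PrimrecPred (fun a => ∀ x < f a, P a x) :=
  (allMem (Primrec.list_range.comp hf) hP).of_eq (fun a => by simp)

theorem powPrim : Primrec₂ (fun a b : ℕ => a ^ b) := by
  refine (Primrec.nat_rec (f := fun _ : ℕ => 1) (g := fun a (p : ℕ × ℕ) => p.2 * a)
    (Primrec.const 1) ?_).of_eq ?_
  · exact (Primrec.nat_mul.comp (snd.comp snd) fst)
  · intro a n
    induction n with
    | zero => rfl
    | succ n ih => rw [pow_succ, ← ih]

theorem tmulPrim {α : Type} [Primcodable α] {n i j : α → ℕ} {l : α → List ℕ} (hn : Primrec n)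
    (hl : Primrec l) (hi : Primrec i) (hj : Primrec j) :
    Primrec (fun a => tmul (n a) (l a) (i a) (j a)) := by
  unfold tmul
  exact (Primrec.list_getD 0).comp hl (Primrec.nat_add.comp (Primrec.nat_mul.comp hi hn) hj)

theorem isTablePrim : PrimrecPred fun x : ℕ × List ℕ => IsTable x.1 x.2 := by
  unfold IsTable
  refine PrimrecPred.and (Primrec.nat_lt.comp (Primrec.const 0) fst) (PrimrecPred.and
    (Primrec.eq.comp (Primrec.list_length.comp snd) (Primrec.nat_mul.comp fst fst))
    (PrimrecPred.and ?_ ?_))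
  · exact allMem (f := fun x : ℕ × List ℕ => x.2) (P := fun x y => y < x.1) snd
      (Primrec.nat_lt.comp snd (fst.comp fst))
  · refine allLt (f := fun x : ℕ × List ℕ => x.1) fst ?_
    refine allLt (f := fun x : (ℕ × List ℕ) × ℕ => x.1.1) (fst.comp fst) ?_
    refine allLt (f := fun x : ((ℕ × List ℕ) × ℕ) × ℕ => x.1.1.1) (fst.comp (fst.comp fst)) ?_
    have hn : Primrec fun x : (((ℕ × List ℕ) × ℕ) × ℕ) × ℕ => x.1.1.1.1 :=
      fst.comp (fst.comp (fst.comp fst))
    have hl : Primrec fun x : (((ℕ × List ℕ) × ℕ) × ℕ) × ℕ => x.1.1.1.2 :=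
      snd.comp (fst.comp (fst.comp fst))
    have hi : Primrec fun x : (((ℕ × List ℕ) × ℕ) × ℕ) × ℕ => x.1.1.2 :=
      snd.comp (fst.comp fst)
    have hj : Primrec fun x : (((ℕ × List ℕ) × ℕ) × ℕ) × ℕ => x.1.2 := snd.comp fst
    have hk : Primrec fun x : (((ℕ × List ℕ) × ℕ) × ℕ) × ℕ => x.2 := snd
    exact Primrec.eq.comp (tmulPrim hn hl (tmulPrim hn hl hi hj) hk)
      (tmulPrim hn hl hi (tmulPrim hn hl hj hk))

/-- value of a word in a table, the assignment being coded by the number `a` -/
def evN (n : ℕ) (l : List ℕ) (a : ℕ) : List ℕ → ℕ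
  | [] => 0
  | [i] => a / n ^ i % n
  | i :: j :: w => tmul n l (a / n ^ i % n) (evN n l a (j :: w))

theorem evNPrim (w : List ℕ) : Primrec fun q : (ℕ × List ℕ) × ℕ => evN q.1.1 q.1.2 q.2 w := by
  have hd : ∀ i, Primrec fun q : (ℕ × List ℕ) × ℕ => q.2 / q.1.1 ^ i % q.1.1 := fun i =>
    Primrec.nat_mod.comp (Primrec.nat_div.comp snd
      (powPrim.comp (fst.comp fst) (Primrec.const i))) (fst.comp fst)
  induction w with
  | nil => exact Primrec.const 0
  | cons i w ih =>
    cases w with
    | nil => exact hd i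
    | cons j w => exact tmulPrim (fst.comp fst) (snd.comp fst) (hd i) ih

def TSat (K : ℕ) (u v : List ℕ) (x : ℕ × List ℕ) : Prop :=
  ∀ a < x.1 ^ K, evN x.1 x.2 a u = evN x.1 x.2 a v

theorem tsatPrim (K : ℕ) (u v : List ℕ) : PrimrecPred (TSat K u v) := by
  unfold TSat
  exact allLt (powPrim.comp fst (Primrec.const K)) (Primrec.eq.comp (evNPrim u) (evNPrim v))

theorem exists_digits (N : ℕ) : ∀ (n : ℕ) (f : ℕ → ℕ), (∀ i < n, f i < N) →
    ∃ m < N ^ n, ∀ i < n, m / N ^ i % N = f i := by
  intro n
  induction n with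
  | zero => intro f _; exact ⟨0, by simp, by simp⟩
  | succ n ih =>
    intro f hf
    obtain ⟨m, hm, hd⟩ := ih f (fun i hi => hf i (by omega))
    have hN : 0 < N := lt_of_le_of_lt (Nat.zero_le _) (hf n (Nat.lt_succ_self n))
    refine ⟨m + f n * N ^ n, ?_, ?_⟩
    · have h1 := hf n (Nat.lt_succ_self n)
      have h2 : (f n + 1) * N ^ n ≤ N * N ^ n := Nat.mul_le_mul_right _ h1
      rw [pow_succ, mul_comm (N ^ n) N]
      rw [add_mul, one_mul] at h2
      omega
    · intro i hi
      rcases Nat.lt_succ_iff_lt_or_eq.1 hi with h | h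
      · have h3 : f n * N ^ n = N ^ i * (N * (f n * N ^ (n - i - 1))) := by
          have : N ^ n = N ^ i * (N * N ^ (n - i - 1)) := by
            rw [← pow_succ', ← pow_add]; congr 1; omega
          rw [this]; ring
        rw [h3, Nat.add_mul_div_left _ _ (pow_pos hN i), Nat.add_mul_mod_self_left]
        exact hd i h
      · subst h
        rw [Nat.add_mul_div_right _ _ (pow_pos hN i), Nat.div_eq_of_lt hm, zero_add]
        exact Nat.mod_eq_of_lt (hf i (Nat.lt_succ_self i))

theorem evN_eq {n : ℕ} {l : List ℕ} (h : IsTable n l) (σ : ℕ → tableSg n l h) (a : ℕ)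
    (w : List ℕ) (hw : w ≠ []) (ha : ∀ i ∈ w, a / n ^ i % n = Fin.val (n := n) (σ i)) :
    ∃ x : tableSg n l h, ev σ w = (x : WithOne (tableSg n l h)) ∧
      evN n l a w = Fin.val (n := n) x := by
  induction w with
  | nil => exact absurd rfl hw
  | cons i w ih =>
    cases w with
    | nil => exact ⟨σ i, by simp [ev], ha i (by simp)⟩
    | cons j w =>
      obtain ⟨y, hy1, hy2⟩ := ih (by simp) (fun k hk => ha k (by simp at hk ⊢; tauto))
      refine ⟨σ i * y, ?_, ?_⟩
      · rw [ev_cons, hy1, WithOne.coe_mul]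
      · show tmul n l (a / n ^ i % n) (evN n l a (j :: w)) = _
        rw [hy2, ha i (by simp)]
        rfl

theorem tsat_iff {K n : ℕ} {l : List ℕ} (h : IsTable n l) {u v : List ℕ} (hu : u ≠ [])
    (hv : v ≠ []) (hu2 : ∀ i ∈ u, i < K) (hv2 : ∀ i ∈ v, i < K) :
    TSat K u v (n, l) ↔ Sat (tableSg n l h) u v := by
  constructor
  · intro hs σ
    obtain ⟨a, ha, hd⟩ := exists_digits n K (fun i => Fin.val (n := n) (σ i))
      (fun i _ => Fin.isLt _)
    obtain ⟨x, hx1, hx2⟩ := evN_eq h σ a u hu (fun i hi => hd i (hu2 i hi))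
    obtain ⟨y, hy1, hy2⟩ := evN_eq h σ a v hv (fun i hi => hd i (hv2 i hi))
    have h1 := hs a ha
    simp only at h1
    rw [hx2, hy2] at h1
    rw [hx1, hy1]
    congr 1
    exact Fin.ext h1
  · intro hs a _
    let σ : ℕ → tableSg n l h := fun i => (⟨a / n ^ i % n, Nat.mod_lt _ h.1⟩ : Fin n)
    obtain ⟨x, hx1, hx2⟩ := evN_eq h σ a u hu (fun i _ => rfl)
    obtain ⟨y, hy1, hy2⟩ := evN_eq h σ a v hv (fun i _ => rfl)
    have h1 := hs σ
    rw [hx1, hy1, WithOne.coe_inj] at h1
    show evN n l a u = evN n l a v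
    rw [hx2, hy2, h1]

/-- a predicate which depends only on finitely many primitive recursive ones is primitive
recursive -/
theorem prim_of_finite {X : Type} [Primcodable X] : ∀ (Qs : List (X → Prop)),
    (∀ Q ∈ Qs, PrimrecPred Q) → ∀ P : X → Prop,
      (∀ x x', (∀ Q ∈ Qs, Q x ↔ Q x') → (P x ↔ P x')) → PrimrecPred P := by
  classical
  intro Qs
  induction Qs with
  | nil =>
    intro _ P hP
    by_cases h : ∃ x, P x
    · obtain ⟨x, hx⟩ := h
      refine (PrimrecPred.of_eq (p := fun _ => True) ?_ ?_)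
      · exact (Primrec.eq.comp (Primrec.const 0) (Primrec.const 0)).of_eq (fun _ => by simp)
      · intro y
        have := hP x y (by simp)
        tauto
    · refine (PrimrecPred.of_eq (p := fun _ => False) ?_ ?_)
      · exact (Primrec.eq.comp (Primrec.const 0) (Primrec.const 1)).of_eq (fun _ => by simp)
      · intro y
        constructor
        · exact False.elim
        · intro hy; exact h ⟨y, hy⟩
  | cons Q Qs ih =>
    intro hQs P hP
    have hQ := hQs Q (by simp)
    have hQs' : ∀ Q ∈ Qs, PrimrecPred Q := fun Q' h' => hQs Q' (by simp [h'])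
    have h1 := ih hQs' (fun x => ∃ x', Q x' ∧ (∀ Q' ∈ Qs, Q' x ↔ Q' x') ∧ P x') (by
      intro x x' hx
      constructor
      · rintro ⟨y, hy1, hy2, hy3⟩
        exact ⟨y, hy1, fun Q' h' => (hx Q' h').symm.trans (hy2 Q' h'), hy3⟩
      · rintro ⟨y, hy1, hy2, hy3⟩
        exact ⟨y, hy1, fun Q' h' => (hx Q' h').trans (hy2 Q' h'), hy3⟩)
    have h0 := ih hQs' (fun x => ∃ x', ¬ Q x' ∧ (∀ Q' ∈ Qs, Q' x ↔ Q' x') ∧ P x') (by
      intro x x' hx
      constructor
      · rintro ⟨y, hy1, hy2, hy3⟩
        exact ⟨y, hy1, fun Q' h' => (hx Q' h').symm.trans (hy2 Q' h'), hy3⟩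
      · rintro ⟨y, hy1, hy2, hy3⟩
        exact ⟨y, hy1, fun Q' h' => (hx Q' h').trans (hy2 Q' h'), hy3⟩)
    refine ((hQ.and h1).or (hQ.not.and h0)).of_eq ?_
    intro x
    constructor
    · rintro (⟨a, y, b, c, d⟩ | ⟨a, y, b, c, d⟩)
      · refine (hP x y ?_).2 d
        intro Q' h'
        rcases List.mem_cons.1 h' with rfl | h'
        · exact ⟨fun _ => b, fun _ => a⟩
        · exact c Q' h'
      · refine (hP x y ?_).2 d
        intro Q' h'
        rcases List.mem_cons.1 h' with rfl | h'
        · exact ⟨fun h => absurd h a, fun h => absurd h b⟩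
        · exact c Q' h'
    · intro hPx
      by_cases hx : Q x
      · exact Or.inl ⟨hx, x, hx, fun _ _ => Iff.rfl, hPx⟩
      · exact Or.inr ⟨hx, x, hx, fun _ _ => Iff.rfl, hPx⟩

theorem finite_words (K L : ℕ) :
    {w : List ℕ | (∀ i ∈ w, i < K) ∧ w.length ≤ L}.Finite := by
  have h1 := (List.finite_length_le (Fin K) L).image (List.map Fin.val)
  refine h1.subset ?_
  rintro w ⟨h2, h3⟩
  refine ⟨w.attach.map (fun i => ⟨i.1, h2 i.1 i.2⟩), by simpa using h3, ?_⟩
  rw [List.map_map]
  conv_rhs => rw [← List.attach_map_subtype_val w]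
  rfl

/-- the class depends on the short identities only, hence is decidable -/
theorem decClass_of_identities (C : Set FinSg) (K L : ℕ)
    (hC : ∀ M M' : FinSg, (∀ u v : List ℕ, u ≠ [] → v ≠ [] → (∀ i ∈ u, i < K) → (∀ i ∈ v, i < K) →
      u.length ≤ L → v.length ≤ L → (Sat M u v ↔ Sat M' u v)) → M ∈ C → M' ∈ C) :
    DecClass C := by
  classical
  let W := (finite_words K L).toFinset.toList.filter (· ≠ [])
  have hW : ∀ w, w ∈ W ↔ (∀ i ∈ w, i < K) ∧ w.length ≤ L ∧ w ≠ [] := by
    intro w
    simp only [W, List.mem_filter, Finset.mem_toList, Set.Finite.mem_toFinset, Set.mem_setOf_eq,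
      decide_eq_true_eq]
    tauto
  let Qs : List (ℕ × List ℕ → Prop) :=
    (fun x => IsTable x.1 x.2) :: W.flatMap (fun u => W.map (fun v => TSat K u v))
  have hQs : ∀ Q ∈ Qs, PrimrecPred Q := by
    intro Q hQ
    rcases List.mem_cons.1 hQ with rfl | hQ
    · exact isTablePrim
    · obtain ⟨u, -, hu⟩ := List.mem_flatMap.1 hQ
      obtain ⟨v, -, rfl⟩ := List.mem_map.1 hu
      exact tsatPrim K u v
  have key : ∀ x x' : ℕ × List ℕ, (∀ Q ∈ Qs, Q x ↔ Q x') →
      (∃ h : IsTable x.1 x.2, tableSg x.1 x.2 h ∈ C) →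
      ∃ h : IsTable x'.1 x'.2, tableSg x'.1 x'.2 h ∈ C := by
    rintro ⟨n, l⟩ ⟨n', l'⟩ hx ⟨h, hM⟩
    have h' : IsTable n' l' := (hx (fun x => IsTable x.1 x.2) (List.mem_cons_self)).1 h
    refine ⟨h', hC _ _ ?_ hM⟩
    intro u v hu hv hu2 hv2 hu3 hv3
    have h1 := hx (TSat K u v) (List.mem_cons_of_mem _ (List.mem_flatMap.2
      ⟨u, (hW u).2 ⟨hu2, hu3, hu⟩, List.mem_map.2 ⟨v, (hW v).2 ⟨hv2, hv3, hv⟩, rfl⟩⟩))
    rw [tsat_iff h hu hv hu2 hv2, tsat_iff h' hu hv hu2 hv2] at h1
    exact h1
  have := prim_of_finite Qs hQs (fun x => ∃ h : IsTable x.1 x.2, tableSg x.1 x.2 h ∈ C)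
    (fun x x' hx => ⟨key x x' hx, key x' x (fun Q hQ => (hx Q hQ).symm)⟩)
  obtain ⟨hd, hp⟩ := this
  exact ⟨hd, hp.to_comp⟩

end prim

/-- the words of the two laws -/
def w1 (c : ℕ) : List ℕ := List.range c ++ [2 * c, 2 * c + 1] ++ List.range' c c
def w2 (c : ℕ) : List ℕ := List.range c ++ [2 * c + 1, 2 * c] ++ List.range' c c
def w3 (c n : ℕ) : List ℕ := List.range c ++ List.replicate n (2 * c) ++ List.range' c c
def w4 (c : ℕ) : List ℕ := List.range c ++ List.range' c c

theorem sat_of_wl {c n : ℕ} {M : Type} [Semigroup M] (hW : Wl c n M) :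
    Sat M (w1 c) (w2 c) ∧ Sat M (w3 c n) (w4 c) := by
  constructor
  · intro σ
    have h1 := hW.1 ((List.range c).map σ) ((List.range' c c).map σ) (by simp) (by simp)
      (σ (2 * c)) (σ (2 * c + 1))
    simp only [w1, w2, ev_append, ev_cons, ev_nil, mul_one]
    rw [← ev_eq_lp, ← ev_eq_lp] at h1
    simp only [mul_assoc] at h1 ⊢
    exact h1
  · intro σ
    have h1 := hW.2 ((List.range c).map σ) ((List.range' c c).map σ) (by simp) (by simp)
      (σ (2 * c))
    simp only [w3, w4, ev_append, ev_replicate]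
    rw [← ev_eq_lp, ← ev_eq_lp] at h1
    exact h1

theorem wl_of_sat {c n : ℕ} {M : Type} [Semigroup M] (h1 : Sat M (w1 c) (w2 c))
    (h2 : Sat M (w3 c n) (w4 c)) : Wl c n M := by
  have key : ∀ (P S : List M), P.length = c → S.length = c → ∀ x y : M,
      ∃ σ : ℕ → M, (List.range c).map σ = P ∧ (List.range' c c).map σ = S ∧ σ (2 * c) = x ∧
        σ (2 * c + 1) = y := by
    intro P S hP hS x y
    refine ⟨fun i => (P ++ S ++ [x, y]).getD i x, ?_, ?_, ?_, ?_⟩
    · apply List.ext_getElem
      · simp [hP]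
      · intro i hi1 hi2
        simp only [List.getElem_map, List.getElem_range]
        rw [List.getD_eq_getElem _ _ (by simp; omega), List.getElem_append_left (by simp; omega),
          List.getElem_append_left (by omega)]
    · apply List.ext_getElem
      · simp [hS]
      · intro i hi1 hi2
        simp only [List.getElem_map, List.getElem_range']
        rw [List.getD_eq_getElem _ _ (by simp; omega), List.getElem_append_left (by simp; omega),
          List.getElem_append_right (by omega)]
        congr 1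
        omega
    · show (P ++ S ++ [x, y]).getD (2 * c) x = x
      rw [List.getD_eq_getElem _ _ (by simp; omega), List.getElem_append_right (by simp; omega)]
      have : 2 * c - (P ++ S).length = 0 := by simp; omega
      simp only [this]
      rfl
    · show (P ++ S ++ [x, y]).getD (2 * c + 1) x = y
      rw [List.getD_eq_getElem _ _ (by simp; omega), List.getElem_append_right (by simp; omega)]
      have : 2 * c + 1 - (P ++ S).length = 1 := by simp; omega
      simp only [this]
      rfl
  constructor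
  · intro P S hP hS x y
    obtain ⟨σ, rfl, rfl, rfl, rfl⟩ := key P S hP hS x y
    have := h1 σ
    simp only [w1, w2, ev_append, ev_cons, ev_nil, mul_one] at this
    rw [← ev_eq_lp, ← ev_eq_lp]
    simp only [mul_assoc] at this ⊢
    exact this
  · intro P S hP hS x
    obtain ⟨σ, rfl, rfl, rfl, -⟩ := key P S hP hS x x
    have := h2 σ
    simp only [w3, w4, ev_append, ev_replicate] at this
    rw [← ev_eq_lp, ← ev_eq_lp]
    exact this

theorem good_of_hsp {M : FinSg} {t : ℕ} (h : ∀ N ∈ opH (opS (opP {M})), Cov t N) : Good t M := by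
  intro k S hS
  obtain ⟨z, hz⟩ := hS
  let A : FinSg := ⟨S, inferInstance, inferInstance, ⟨⟨z, hz⟩⟩⟩
  let j : A →ₙ* prodSg (fun _ : Fin (k + 1) => M) := ⟨fun z : S => z.1, fun _ _ => rfl⟩
  have hj : Function.Injective j := fun _ _ h => Subtype.ext h
  exact h A ⟨A, ⟨prodSg (fun _ : Fin (k + 1) => M),
    ⟨k, fun _ => M, fun _ => rfl, ⟨MulEquiv.refl _⟩⟩, j, hj⟩, MulHom.id _,
      Function.surjective_id⟩

/-- The kernel of any class all of whose members are homomorphic images of products of
semigroups of bounded size is decidable. -/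
theorem kernel_dec (C : Set FinSg) (t : ℕ) (ht : 1 ≤ t) (hC : ∀ N ∈ C, Cov t N) :
    DecClass {M | M ∈ C ∧ opH (opS (opP {M})) ⊆ C} := by
  apply decClass_of_identities _ (4 * (t + 1) + 1)
    (2 * (t + 1) + (4 * (t + 1) + 1) * t.factorial)
  rintro M M' hMM ⟨hM, hMC⟩
  have hn : 1 ≤ t.factorial := Nat.factorial_pos t
  have hgood : Good t M := good_of_hsp (fun N hN => hC N (hMC hN))
  have hW : Wl (t + 1) t.factorial M := wl_of_good ht hgood
  obtain ⟨s1, s2⟩ := sat_of_wl hW
  have hr : ∀ i ∈ List.range (t + 1), i < 4 * (t + 1) + 1 := by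
    intro i hi; rw [List.mem_range] at hi; omega
  have hr' : ∀ i ∈ List.range' (t + 1) (t + 1), i < 4 * (t + 1) + 1 := by
    intro i hi; rw [List.mem_range'_1] at hi; omega
  have hbig : t.factorial ≤ (4 * (t + 1) + 1) * t.factorial := Nat.le_mul_of_pos_left _ (by omega)
  have hbig2 : 4 * (t + 1) + 1 ≤ (4 * (t + 1) + 1) * t.factorial := Nat.le_mul_of_pos_right _ hn
  have hW' : Wl (t + 1) t.factorial M' := by
    apply wl_of_sat
    · refine (hMM _ _ (by simp [w1]) (by simp [w2]) ?_ ?_ ?_ ?_).1 s1
      · intro i hi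
        simp only [w1, List.mem_append, List.mem_cons, List.not_mem_nil, or_false] at hi
        rcases hi with (hi | hi | hi) | hi
        · exact hr i hi
        · omega
        · omega
        · exact hr' i hi
      · intro i hi
        simp only [w2, List.mem_append, List.mem_cons, List.not_mem_nil, or_false] at hi
        rcases hi with (hi | hi | hi) | hi
        · exact hr i hi
        · omega
        · omega
        · exact hr' i hi
      · simp [w1]; omega
      · simp [w2]; omega
    · refine (hMM _ _ (by simp [w3]) (by simp [w4]) ?_ ?_ ?_ ?_).1 s2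
      · intro i hi
        simp only [w3, List.mem_append, List.mem_replicate] at hi
        rcases hi with (hi | hi) | hi
        · exact hr i hi
        · omega
        · exact hr' i hi
      · intro i hi
        simp only [w4, List.mem_append] at hi
        rcases hi with hi | hi
        · exact hr i hi
        · exact hr' i hi
      · simp [w3]; omega
      · simp [w4]; omega
  have hsat : ∀ u v : List ℕ, u ≠ [] → v ≠ [] → Sat M u v → Sat M' u v := by
    intro u v hu hv h
    exact sat_all hW hW' hn (fun u v hu hv h1 h2 h3 h4 => (hMM u v hu hv h1 h2 h3 h4).1) hu hv h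
  exact ⟨hMC (hsp_of_sat hsat), fun N hN => hMC (hsp_of_sat fun u v hu hv h =>
    sat_of_hsp hN hu hv (hsat u v hu hv h))⟩

theorem finTypes_card {Φ : Set FinSg} (h : FinTypes Φ) :
    ∃ t : ℕ, 1 ≤ t ∧ ∀ A ∈ Φ, Nat.card A ≤ t := by
  obtain ⟨L, hL⟩ := h
  refine ⟨1 + (L.map fun B : FinSg => Nat.card B).sum, by omega, fun A hA => ?_⟩
  obtain ⟨B, hB, ⟨e⟩⟩ := hL A hA
  rw [Nat.card_congr e.toEquiv]
  have := List.single_le_sum (l := L.map fun B : FinSg => Nat.card B) (by simp) (Nat.card B)
    (List.mem_map.2 ⟨B, hB, rfl⟩)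
  omega

theorem cov_of_hp {Φ : Set FinSg} {t : ℕ} (h : ∀ A ∈ Φ, Nat.card A ≤ t) :
    ∀ N ∈ opH (opP Φ), Cov t N := by
  rintro N ⟨A, ⟨n, T, hT, ⟨e⟩⟩, f, hf⟩
  exact ⟨n + 1, T, fun c => h _ (hT c), f.comp (e.symm : prodSg T →ₙ* A),
    hf.comp e.symm.surjective⟩

theorem card_opS {Φ : Set FinSg} {t : ℕ} (h : ∀ A ∈ Φ, Nat.card A ≤ t) :
    ∀ A ∈ opS Φ, Nat.card A ≤ t := by
  rintro B ⟨A, hA, f, hf⟩
  exact (Nat.card_le_card_of_injective f hf).trans (h A hA)

/-- For `K = HP` and for `K = HPS` and every class `Φ` of finite semigroups with finitely many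
isomorphism types, the kernel `Cor (K Φ)` is decidable. -/
theorem result (Φ : Set FinSg) (hΦ : FinTypes Φ) (K : Set FinSg → Set FinSg)
    (hK : K = (fun C => opH (opP C)) ∨ K = (fun C => opH (opP (opS C)))) :
    DecClass (Cor K Φ) := by
  obtain ⟨t, ht, hcard⟩ := finTypes_card hΦ
  rcases hK with rfl | rfl
  · exact kernel_dec _ t ht (cov_of_hp hcard)
  · exact kernel_dec _ t ht (cov_of_hp (card_opS hcard))

end Pool.Agent.Results.MP_88bd66_lc.HPandHPS
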